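import Mathlib

/-!
# Asymptotically rigid mapping class groups of thickened planar trees

`RigidSurface` is a locally finite planar tree with a thickening in the plane and a rigid structure,
`RigidSurface.Mod` its asymptotically rigid mapping class group.
-/

set_option autoImplicit false

namespace Pool.Agent.Q238.AR

open Set Topology

/-- A locally finite planar tree `T`, thickened in the plane, with a rigid structure: the
vertices `v` of the tree sit at the points `pt v` of the plane, and `P v` is the polygon around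
`pt v`. The polygons are closed discs in the plane with disjoint interiors, forming a locally
finite family; the polygons of adjacent vertices meet in an arc (the arc of the rigid structure
which crosses the edge), those of different nonadjacent vertices are disjoint. -/
structure RigidSurface where
  /-- the vertices of the tree -/
  V : Type
  /-- the tree -/
  T : SimpleGraph V
  tree : T.IsTree
  /-- the vertices as points of the plane; they are the punctures -/
  pt : V → ℂ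
  /-- the polygons -/
  P : V → Set ℂ
  disc : ∀ v, Nonempty (P v ≃ₜ Metric.closedBall (0 : ℂ) 1)
  mem : ∀ v, pt v ∈ interior (P v)
  locFin : LocallyFinite P
  inter : ∀ v w, v ≠ w → Disjoint (interior (P v)) (P w)
  far : ∀ v w, v ≠ w → ¬ T.Adj v w → Disjoint (P v) (P w)
  arc : ∀ v w, T.Adj v w → Nonempty (↥(P v ∩ P w) ≃ₜ unitInterval)

namespace RigidSurface

variable (X : RigidSurface)

/-- The thickening of the tree, a surface with boundary in the plane. -/
def S : Set ℂ := ⋃ v, X.P v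

/-- The topology of the surface, as a subset of the plane. -/
noncomputable instance (priority := high) topS : TopologicalSpace X.S := instTopologicalSpaceSubtype

/-- The product topology. -/
noncomputable instance (priority := high) topC : TopologicalSpace (unitInterval × X.S) :=
  instTopologicalSpaceProd

/-- The group of all homeomorphisms of the surface. -/
def Homeo : Type := X.S ≃ₜ X.S

noncomputable instance : Group X.Homeo := inferInstanceAs (Group (X.S ≃ₜ X.S))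

/-- The polygon around the vertex `v`, as a subset of the surface. -/
def poly (v : X.V) : Set X.S := Subtype.val ⁻¹' X.P v

/-- The union of the polygons of a finite set of vertices. -/
def sub (F : Finset X.V) : Set X.S := ⋃ v ∈ F, X.poly v

/-- A finite union of polygons is admissible if it is nonempty and connected. -/
def Admissible (F : Finset X.V) : Prop := F.Nonempty ∧ IsConnected (X.sub F)

/-- The punctures, treated as marked points of the surface. -/
def marked : Set X.S := {x | ∃ v, (x : ℂ) = X.pt v}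

/-- `φ` maps the admissible subsurface of `F` onto the admissible subsurface of `F'` and the
other polygons to polygons outside the subsurface of `F'`. -/
def Wit (φ : X.S ≃ₜ X.S) (F F' : Finset X.V) : Prop :=
  X.Admissible F ∧ X.Admissible F' ∧ φ '' X.sub F = X.sub F' ∧
    ∀ v ∉ F, ∃ w ∉ F', φ '' X.poly v = X.poly w

/-- Asymptotically rigid homeomorphisms. -/
def AsympRigid (φ : X.S ≃ₜ X.S) : Prop := ∃ F F' : Finset X.V, X.Wit φ F F'

/-- Orientation preserving homeomorphisms: near every point the homeomorphism can be deformed to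
the inclusion through embeddings into the plane. -/
def OrPres (φ : X.S ≃ₜ X.S) : Prop :=
  ∀ z : X.S, ∃ U ∈ 𝓝 z, ∃ H : ℝ × X.S → ℂ, ContinuousOn H (Icc 0 1 ×ˢ U) ∧
    (∀ s ∈ Icc (0 : ℝ) 1, InjOn (fun x => H (s, x)) U) ∧
    (∀ x ∈ U, H (0, x) = x) ∧ ∀ x ∈ U, H (1, x) = φ x

/-- Homeomorphisms isotopic to the identity; the isotopy fixes all punctures. -/
def Isotopic (φ : X.S ≃ₜ X.S) : Prop :=
  ∃ Ψ : unitInterval × X.S ≃ₜ unitInterval × X.S, (∀ x, (Ψ x).1 = x.1) ∧
    (∀ s, ∀ x ∈ X.marked, Ψ (s, x) = (s, x)) ∧ (∀ x, Ψ (0, x) = (0, x)) ∧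
    ∀ x, Ψ (1, x) = (1, φ x)

variable {X}

lemma P_sub (v : X.V) : X.P v ⊆ X.S := subset_iUnion X.P v

lemma val_poly (v : X.V) : Subtype.val '' X.poly v = X.P v := by
  unfold poly
  rw [Subtype.image_preimage_coe]
  exact inter_eq_right.2 (P_sub v)

lemma pt_mem (v : X.V) : X.pt v ∈ X.P v := interior_subset (X.mem v)

/-- the puncture as a point of the surface -/
def ptS (X : RigidSurface) (v : X.V) : X.S := ⟨X.pt v, P_sub v (pt_mem v)⟩

lemma ptS_mem (v : X.V) : X.ptS v ∈ X.poly v := pt_mem v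

lemma eq_of_pt_mem {v w : X.V} (h : X.ptS v ∈ X.poly w) : v = w := by
  by_contra hne
  exact Set.disjoint_left.1 (X.inter v w hne) (X.mem v) h

lemma poly_inj {v w : X.V} (h : X.poly v = X.poly w) : v = w :=
  eq_of_pt_mem (h ▸ ptS_mem v)

lemma poly_conn (v : X.V) : IsConnected (X.poly v) := by
  have h1 : IsConnected (X.P v) := by
    obtain ⟨e⟩ := X.disc v
    have h2 : IsConnected (Metric.closedBall (0 : ℂ) 1) :=
      (convex_closedBall (0 : ℂ) 1).isConnected ⟨0, by simp⟩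
    rw [isConnected_iff_connectedSpace] at h2 ⊢
    exact e.symm.surjective.connectedSpace e.symm.continuous
  rw [← val_poly] at h1
  refine ⟨⟨X.ptS v, ptS_mem v⟩, ?_⟩
  exact (Topology.IsInducing.subtypeVal.isPreconnected_image).1 h1.2

lemma adj_nonempty {v w : X.V} (h : X.T.Adj v w) : (X.poly v ∩ X.poly w).Nonempty := by
  obtain ⟨e⟩ := X.arc v w h
  obtain ⟨x, hx⟩ := e.symm 0
  exact ⟨⟨x, P_sub v hx.1⟩, hx.1, hx.2⟩

lemma mem_sub {F : Finset X.V} {x : X.S} : x ∈ X.sub F ↔ ∃ v ∈ F, x ∈ X.poly v := by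
  simp [sub]

lemma walk_conn {v w : X.V} (p : X.T.Walk v w) :
    IsConnected (⋃ u ∈ {u | u ∈ p.support}, X.poly u) := by
  induction p with
  | nil => simpa using poly_conn _
  | @cons u v w h p ih =>
    have h1 : (⋃ a ∈ {a | a ∈ (SimpleGraph.Walk.cons h p).support}, X.poly a)
        = X.poly u ∪ ⋃ a ∈ {a | a ∈ p.support}, X.poly a := by
      ext x
      simp
    rw [h1]
    obtain ⟨y, hy1, hy2⟩ := adj_nonempty h
    refine IsConnected.union ⟨y, hy1, ?_⟩ (poly_conn u) ih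
    simp only [mem_iUnion]
    exact ⟨v, p.start_mem_support, hy2⟩

/-- every finite set of polygons is contained in an admissible subsurface -/
lemma exists_adm (A : Finset X.V) (hA : A.Nonempty) : ∃ K, A ⊆ K ∧ X.Admissible K := by
  classical
  obtain ⟨a0, h0⟩ := hA
  have hc : ∀ a, Nonempty (X.T.Walk a0 a) := fun a => X.tree.1.preconnected a0 a
  let p : ∀ a, X.T.Walk a0 a := fun a => (hc a).some
  refine ⟨A.biUnion fun a => (p a).support.toFinset, fun a ha => ?_,
    ⟨a0, ?_⟩, ?_⟩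
  · exact Finset.mem_biUnion.2 ⟨a, ha, List.mem_toFinset.2 (p a).end_mem_support⟩
  · exact Finset.mem_biUnion.2 ⟨a0, h0, List.mem_toFinset.2 (p a0).start_mem_support⟩
  · have h1 : X.sub (A.biUnion fun a => (p a).support.toFinset)
        = ⋃ a ∈ (A : Set X.V), ⋃ u ∈ {u | u ∈ (p a).support}, X.poly u := by
      ext x
      simp [sub]
    rw [h1]
    have h2 : ∀ a ∈ (A : Set X.V), X.ptS a0 ∈ ⋃ u ∈ {u | u ∈ (p a).support}, X.poly u := by
      intro a _
      simp only [mem_iUnion]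
      exact ⟨a0, (p a).start_mem_support, ptS_mem a0⟩
    refine ⟨⟨X.ptS a0, mem_iUnion₂.2 ⟨a0, h0, h2 a0 h0⟩⟩, ?_⟩
    rw [← sUnion_image]
    refine isPreconnected_sUnion (X.ptS a0) _ ?_ ?_
    · rintro _ ⟨a, ha, rfl⟩
      exact h2 a ha
    · rintro _ ⟨a, ha, rfl⟩
      exact (walk_conn (p a)).2

lemma wit_poly {φ : X.S ≃ₜ X.S} {F F' : Finset X.V} (h : X.Wit φ F F') {w : X.V} (hw : w ∉ F') :
    ∃ v ∉ F, φ '' X.poly v = X.poly w := by
  obtain ⟨v, hv⟩ := mem_iUnion.1 (φ.symm (X.ptS w)).2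
  have hv1 : φ.symm (X.ptS w) ∈ X.poly v := hv
  by_cases hF : v ∈ F
  · exfalso
    have h1 : φ (φ.symm (X.ptS w)) ∈ X.sub F' := by
      rw [← h.2.2.1]
      exact ⟨_, mem_sub.2 ⟨v, hF, hv1⟩, rfl⟩
    rw [φ.apply_symm_apply] at h1
    obtain ⟨u, hu, hu2⟩ := mem_sub.1 h1
    exact hw (eq_of_pt_mem hu2 ▸ hu)
  · obtain ⟨u, hu, hu2⟩ := h.2.2.2 v hF
    have h1 : φ (φ.symm (X.ptS w)) ∈ X.poly u := by
      rw [← hu2]
      exact ⟨_, hv1, rfl⟩
    rw [φ.apply_symm_apply] at h1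
    exact ⟨v, hF, by rw [hu2, eq_of_pt_mem h1]⟩

lemma Wit.symm {φ : X.S ≃ₜ X.S} {F F' : Finset X.V} (h : X.Wit φ F F') :
    X.Wit φ.symm F' F := by
  refine ⟨h.2.1, h.1, ?_, fun w hw => ?_⟩
  · rw [← h.2.2.1, ← image_comp]
    simp
  · obtain ⟨v, hv, hv2⟩ := wit_poly h hw
    refine ⟨v, hv, ?_⟩
    rw [← hv2, ← image_comp]
    simp

lemma Wit.enlarge {φ : X.S ≃ₜ X.S} {F F' : Finset X.V} (h : X.Wit φ F F') {K : Finset X.V}
    (hK : X.Admissible K) (hF : F ⊆ K) : ∃ K', F' ⊆ K' ∧ X.Wit φ K K' := by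
  classical
  have h1 : ∀ v, ∃ w, v ∉ F → w ∉ F' ∧ φ '' X.poly v = X.poly w := by
    intro v
    by_cases hv : v ∈ F
    · exact ⟨v, fun h => absurd hv h⟩
    · obtain ⟨w, hw, hw2⟩ := h.2.2.2 v hv
      exact ⟨w, fun _ => ⟨hw, hw2⟩⟩
  choose f hf using h1
  have hinj : ∀ v v', v ∉ F → v' ∉ F → f v = f v' → v = v' := by
    intro v v' hv hv' he
    have h2 := (hf v hv).2
    rw [he, ← (hf v' hv').2] at h2
    exact poly_inj (φ.injective.image_injective h2)
  have him : φ '' X.sub K = X.sub (F' ∪ (K \ F).image f) := by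
    ext y
    constructor
    · rintro ⟨x, hx, rfl⟩
      obtain ⟨v, hv, hxv⟩ := mem_sub.1 hx
      by_cases hvF : v ∈ F
      · have h3 : φ x ∈ X.sub F' := by
          rw [← h.2.2.1]
          exact ⟨x, mem_sub.2 ⟨v, hvF, hxv⟩, rfl⟩
        obtain ⟨w, hw, hxw⟩ := mem_sub.1 h3
        exact mem_sub.2 ⟨w, Finset.mem_union_left _ hw, hxw⟩
      · refine mem_sub.2 ⟨f v, Finset.mem_union_right _ (Finset.mem_image_of_mem f
          (Finset.mem_sdiff.2 ⟨hv, hvF⟩)), ?_⟩
        rw [← (hf v hvF).2]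
        exact ⟨x, hxv, rfl⟩
    · intro hy
      obtain ⟨w, hw, hyw⟩ := mem_sub.1 hy
      rcases Finset.mem_union.1 hw with hw | hw
      · have h3 : y ∈ φ '' X.sub F := by
          rw [h.2.2.1]
          exact mem_sub.2 ⟨w, hw, hyw⟩
        obtain ⟨x, hx, rfl⟩ := h3
        obtain ⟨v, hv, hxv⟩ := mem_sub.1 hx
        exact ⟨x, mem_sub.2 ⟨v, hF hv, hxv⟩, rfl⟩
      · obtain ⟨v, hv, rfl⟩ := Finset.mem_image.1 hw
        obtain ⟨hv1, hv2⟩ := Finset.mem_sdiff.1 hv
        rw [← (hf v hv2).2] at hyw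
        obtain ⟨x, hx, rfl⟩ := hyw
        exact ⟨x, mem_sub.2 ⟨v, hv1, hx⟩, rfl⟩
  refine ⟨F' ∪ (K \ F).image f, Finset.subset_union_left, hK, ⟨?_, ?_⟩, him, fun v hv => ?_⟩
  · exact h.2.1.1.mono Finset.subset_union_left
  · rw [← him]
    exact hK.2.image _ φ.continuous.continuousOn
  · have hvF : v ∉ F := fun h => hv (hF h)
    refine ⟨f v, fun h3 => ?_, (hf v hvF).2⟩
    rcases Finset.mem_union.1 h3 with h3 | h3
    · exact (hf v hvF).1 h3
    · obtain ⟨v', hv', he⟩ := Finset.mem_image.1 h3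
      obtain ⟨hv1, hv2⟩ := Finset.mem_sdiff.1 hv'
      exact hv (hinj _ _ hv2 hvF he ▸ hv1)

lemma AsympRigid.symm {φ : X.S ≃ₜ X.S} (h : X.AsympRigid φ) : X.AsympRigid φ.symm := by
  obtain ⟨F, F', h⟩ := h
  exact ⟨F', F, h.symm⟩

lemma AsympRigid.trans {φ ψ : X.S ≃ₜ X.S} (h : X.AsympRigid φ) (h' : X.AsympRigid ψ) :
    X.AsympRigid (φ.trans ψ) := by
  classical
  obtain ⟨F1, F2, h⟩ := h
  obtain ⟨F3, F4, h'⟩ := h'
  obtain ⟨K, hK, hK2⟩ := exists_adm (F2 ∪ F3) (h.2.1.1.mono Finset.subset_union_left)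
  obtain ⟨K1, -, h1⟩ := h.symm.enlarge hK2 (Finset.subset_union_left.trans hK)
  obtain ⟨K4, -, h4⟩ := h'.enlarge hK2 (Finset.subset_union_right.trans hK)
  have h1' := h1.symm
  rw [Homeomorph.symm_symm] at h1'
  refine ⟨K1, K4, h1.2.1, h4.2.1, ?_, fun v hv => ?_⟩
  · rw [← h4.2.2.1, ← h1'.2.2.1, ← image_comp]
    rfl
  · obtain ⟨u, hu, hu2⟩ := h1'.2.2.2 v hv
    obtain ⟨w, hw, hw2⟩ := h4.2.2.2 u hu
    refine ⟨w, hw, ?_⟩
    rw [← hw2, ← hu2, ← image_comp]
    rfl

lemma AsympRigid.refl [Nonempty X.V] : X.AsympRigid (Homeomorph.refl _) := by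
  obtain ⟨v⟩ := ‹Nonempty X.V›
  obtain ⟨K, -, hK⟩ := exists_adm (X := X) {v} (Finset.singleton_nonempty v)
  exact ⟨K, K, hK, hK, by simp, fun v hv => ⟨v, hv, by simp⟩⟩

lemma OrPres.refl : X.OrPres (Homeomorph.refl _) := by
  intro z
  refine ⟨univ, Filter.univ_mem, fun x => x.2, ?_, ?_, ?_, ?_⟩
  · fun_prop
  · intro s _ x _ y _ h
    exact Subtype.ext h
  · intro x _; rfl
  · intro x _; rfl

lemma OrPres.symm {φ : X.S ≃ₜ X.S} (h : X.OrPres φ) : X.OrPres φ.symm := by
  intro z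
  obtain ⟨U, hU, H, h1, h2, h3, h4⟩ := h (φ.symm z)
  refine ⟨φ.symm ⁻¹' U, φ.symm.continuous.continuousAt hU, fun x => H (1 - x.1, φ.symm x.2),
    ?_, ?_, ?_, ?_⟩
  · refine h1.comp (by fun_prop) ?_
    rintro ⟨s, x⟩ ⟨hs, hx⟩
    exact ⟨⟨by linarith [hs.2], by linarith [hs.1]⟩, hx⟩
  · intro s hs x hx y hy hxy
    have := h2 (1 - s) ⟨by linarith [hs.2], by linarith [hs.1]⟩ hx hy hxy
    exact φ.symm.injective this
  · intro x hx
    have := h4 (φ.symm x) hx
    simpa using this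
  · intro x hx
    have := h3 (φ.symm x) hx
    simpa using this

lemma OrPres.trans {φ ψ : X.S ≃ₜ X.S} (h : X.OrPres φ) (h' : X.OrPres ψ) :
    X.OrPres (φ.trans ψ) := by
  intro z
  obtain ⟨U, hU, H, h1, h2, h3, h4⟩ := h z
  obtain ⟨U', hU', H', h1', h2', h3', h4'⟩ := h' (φ z)
  refine ⟨U ∩ φ ⁻¹' U', Filter.inter_mem hU (φ.continuous.continuousAt hU'),
    fun x => if x.1 ≤ 1 / 2 then H (2 * x.1, x.2) else H' (2 * x.1 - 1, φ x.2), ?_, ?_, ?_, ?_⟩
  · refine ContinuousOn.if ?_ ?_ ?_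
    · rintro ⟨s, x⟩ ⟨⟨hs, hx⟩, hf⟩
      have hs2 : s = 1 / 2 := by
        have hc : {a : ℝ × X.S | a.1 ≤ 1 / 2} = Prod.fst ⁻¹' Iic (1 / 2) := rfl
        have := frontier_le_subset_eq (f := fun a : ℝ × X.S => a.1) (g := fun _ => (1 / 2 : ℝ))
          continuous_fst continuous_const hf
        exact this
      have e1 := h4 x hx.1
      have e2 := h3' (φ x) hx.2
      subst hs2
      simp only
      norm_num
      rw [e1, e2]
    · refine (h1.comp (f := fun x : ℝ × X.S => (2 * x.1, x.2)) (by fun_prop)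
        (s := Icc 0 (1 / 2) ×ˢ U) ?_).mono ?_
      · rintro ⟨s, x⟩ ⟨hs, hx⟩
        exact ⟨⟨by linarith [hs.1], by linarith [hs.2]⟩, hx⟩
      · rintro ⟨s, x⟩ ⟨⟨hs, hx⟩, hc⟩
        have hc' : s ≤ 1 / 2 := by
          have := closure_le_eq (f := fun a : ℝ × X.S => a.1) (g := fun _ => (1 / 2 : ℝ))
            continuous_fst continuous_const
          rw [this] at hc
          exact hc
        exact ⟨⟨hs.1, hc'⟩, hx.1⟩
    · refine (h1'.comp (f := fun x : ℝ × X.S => (2 * x.1 - 1, φ x.2)) (by fun_prop)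
        (s := Icc (1 / 2) 1 ×ˢ (φ ⁻¹' U')) ?_).mono ?_
      · rintro ⟨s, x⟩ ⟨hs, hx⟩
        exact ⟨⟨by linarith [hs.1], by linarith [hs.2]⟩, hx⟩
      · rintro ⟨s, x⟩ ⟨⟨hs, hx⟩, hc⟩
        have hc' : 1 / 2 ≤ s := by
          have h5 : closure {a : ℝ × X.S | ¬ a.1 ≤ 1 / 2} ⊆ {a | 1 / 2 ≤ a.1} := by
            refine closure_minimal (fun a ha => ?_) (isClosed_le continuous_const continuous_fst)
            simp only [mem_ofPred_eq, not_le] at ha ⊢
            exact ha.le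
          exact h5 hc
        exact ⟨⟨hc', hs.2⟩, hx.2⟩
  · intro s hs x hx y hy hxy
    by_cases h5 : s ≤ 1 / 2
    · simp only [h5, if_true] at hxy
      exact h2 (2 * s) ⟨by linarith [hs.1], by linarith⟩ hx.1 hy.1 hxy
    · simp only [h5, if_false] at hxy
      push Not at h5
      have := h2' (2 * s - 1) ⟨by linarith, by linarith [hs.2]⟩ hx.2 hy.2 hxy
      exact φ.injective this
  · intro x hx
    have := h3 x hx.1
    simpa using this
  · intro x hx
    have := h4' (φ x) hx.2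
    norm_num
    exact this

instance : Nonempty X.V := X.tree.1.nonempty

/-- The homeomorphisms of the group. -/
def IsGrp (X : RigidSurface) (φ : X.S ≃ₜ X.S) : Prop :=
  φ '' X.marked = X.marked ∧ X.AsympRigid φ ∧ X.OrPres φ

lemma IsGrp.one : X.IsGrp 1 := ⟨by
    change (Homeomorph.refl _) '' X.marked = X.marked
    simp, AsympRigid.refl, OrPres.refl⟩

lemma IsGrp.mul {φ ψ : X.S ≃ₜ X.S} (h : X.IsGrp φ) (h' : X.IsGrp ψ) : X.IsGrp (φ * ψ) := by
  obtain ⟨a1, a2, a3⟩ := h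
  obtain ⟨b1, b2, b3⟩ := h'
  refine ⟨?_, b2.trans a2, b3.trans a3⟩
  have : (⇑(φ * ψ) : X.S → X.S) = φ ∘ ψ := rfl
  rw [this, image_comp, b1, a1]

lemma IsGrp.inv {φ : X.S ≃ₜ X.S} (h : X.IsGrp φ) : X.IsGrp φ⁻¹ := by
  obtain ⟨a1, a2, a3⟩ := h
  refine ⟨?_, a2.symm, a3.symm⟩
  have : (⇑(φ⁻¹) : X.S → X.S) = φ.symm := rfl
  rw [this]
  nth_rewrite 1 [← a1]
  rw [← image_comp]
  simp

/-- The group of orientation preserving asymptotically rigid homeomorphisms of the punctured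
surface. -/
def Grp (X : RigidSurface) : Subgroup X.Homeo where
  carrier := {φ | X.IsGrp φ}
  one_mem' := IsGrp.one
  mul_mem' := IsGrp.mul
  inv_mem' := IsGrp.inv

lemma Isotopic.one : X.Isotopic 1 :=
  ⟨Homeomorph.refl _, fun _ => rfl, fun _ _ _ => rfl, fun _ => rfl, fun _ => rfl⟩

lemma Isotopic.mul {φ ψ : X.S ≃ₜ X.S} (h : X.Isotopic φ) (h' : X.Isotopic ψ) :
    X.Isotopic (φ * ψ) := by
  obtain ⟨Ψ, a, b, c, d⟩ := h
  obtain ⟨Ψ', a', b', c', d'⟩ := h'
  refine ⟨Ψ'.trans Ψ, fun x => ?_, fun s x hx => ?_, fun x => ?_, fun x => ?_⟩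
  · rw [Homeomorph.trans_apply, a, a']
  · rw [Homeomorph.trans_apply, b' s x hx, b s x hx]
  · rw [Homeomorph.trans_apply, c', c]
  · rw [Homeomorph.trans_apply, d', d]
    rfl

lemma Isotopic.inv {φ : X.S ≃ₜ X.S} (h : X.Isotopic φ) : X.Isotopic φ⁻¹ := by
  obtain ⟨Ψ, a, b, c, d⟩ := h
  refine ⟨Ψ.symm, fun x => ?_, fun s x hx => ?_, fun x => ?_, fun x => ?_⟩
  · rw [← a (Ψ.symm x), Ψ.apply_symm_apply]
  · rw [Homeomorph.symm_apply_eq, b s x hx]
  · rw [Homeomorph.symm_apply_eq, c]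
  · rw [Homeomorph.symm_apply_eq, d]
    have : φ (φ⁻¹ x) = x := φ.apply_symm_apply x
    rw [this]

lemma Isotopic.conj {φ g : X.S ≃ₜ X.S} (h : X.Isotopic φ) (hg : g '' X.marked = X.marked) :
    X.Isotopic (g * φ * g⁻¹) := by
  obtain ⟨Ψ, a, b, c, d⟩ := h
  let g' : unitInterval × X.S ≃ₜ unitInterval × X.S := (Homeomorph.refl _).prodCongr g
  refine ⟨g'.symm.trans (Ψ.trans g'), fun x => ?_, fun s x hx => ?_, fun x => ?_, fun x => ?_⟩
  · simp [g', a]
  · have hx' : g.symm x ∈ X.marked := by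
      rw [← hg] at hx
      obtain ⟨y, hy, rfl⟩ := hx
      simpa using hy
    simp [g', b s _ hx']
  · simp [g', c]
  · simp [g', d]

/-- The group of the homeomorphisms isotopic to the identity. -/
def Iso (X : RigidSurface) : Subgroup X.Homeo where
  carrier := {φ | X.Isotopic φ}
  one_mem' := Isotopic.one
  mul_mem' := Isotopic.mul
  inv_mem' := Isotopic.inv

instance : (X.Iso.subgroupOf X.Grp).Normal where
  conj_mem := by
    rintro ⟨φ, hφ⟩ h ⟨g, hg⟩
    exact Isotopic.conj (φ := φ) (g := g) h hg.1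

/-- The asymptotically rigid mapping class group. -/
def Mod (X : RigidSurface) : Type := X.Grp ⧸ X.Iso.subgroupOf X.Grp

noncomputable instance : Group X.Mod := QuotientGroup.Quotient.group (X.Iso.subgroupOf X.Grp)

/-- the class of a homeomorphism -/
noncomputable def cls (X : RigidSurface) : X.Grp →* X.Mod := QuotientGroup.mk' (X.Iso.subgroupOf X.Grp)

end RigidSurface

end Pool.Agent.Q238.AR
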