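import Pool.Agent.Q238.AR.Poly

/-!
# The homeomorphisms `r k` and the subgroup which they generate
-/

set_option autoImplicit false

namespace Pool.Agent.Q238.AR

open Set Topology

/-- `r k` as a homeomorphism of the plane -/
noncomputable def rk (k : ℕ) : ℂ ≃ₜ ℂ := Dsc ⟨RR k, RR_mem k⟩

lemma rk_pp (k : ℕ) (x : ℝ × ℝ) : rk k (pp x) = pp (RR k x) := Dsc_pp _ x

lemma rk_SS (k : ℕ) (z : ℂ) : z ∈ XX.S ↔ rk k z ∈ XX.S := by
  rw [XX_S]
  obtain ⟨x, rfl⟩ := pp_surj z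
  rw [rk_pp, pp_SS, pp_SS, RR_Sk]

/-- `r k` as a homeomorphism of the surface -/
noncomputable def fk (k : ℕ) : XX.S ≃ₜ XX.S := (rk k).subtype (rk_SS k)

lemma fk_val (k : ℕ) (z : XX.S) : (fk k z : ℂ) = rk k z := rfl

lemma rk_sq (k : ℕ) (z : ℂ) : rk (k + 1) (rk (k + 1) z) = rk k z := by
  obtain ⟨x, rfl⟩ := pp_surj z
  rw [rk_pp, rk_pp, rk_pp, ← RR_sq k]
  rfl

lemma fk_sq (k : ℕ) : fk (k + 1) * fk (k + 1) = fk k := by
  refine Homeomorph.ext fun z => Subtype.ext ?_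
  exact rk_sq k z

lemma fk_zero : fk 0 = 1 := by
  refine Homeomorph.ext fun z => Subtype.ext ?_
  rw [fk_val]
  obtain ⟨x, hx⟩ := pp_surj (z : ℂ)
  rw [← hx, rk_pp, RR_zero]
  change _ = (z : ℂ)
  rw [← hx, pp_eq]
  right
  exact ⟨by simp, 1, by simp⟩

/-- the polygons with index `< 2 ^ k` form the disc of radius `k + 1` -/
def Fk (k : ℕ) : Finset ℕ := Finset.range (2 ^ k)

lemma mem_subF {k : ℕ} {z : XX.S} : z ∈ XX.sub (Fk k) ↔ ‖(z : ℂ)‖ ≤ k + 1 := by
  have hk : (0 : ℝ) ≤ k := by positivity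
  rw [RigidSurface.mem_sub]
  constructor
  · rintro ⟨n, hn, hz⟩
    have hz' : (z : ℂ) ∈ PP n := hz
    have hn' : n < 2 ^ k := Finset.mem_range.1 hn
    by_cases h0 : n = 0
    · subst h0
      rw [PP_zero] at hz'
      linarith [norm_Q0 hz']
    · have h1 := PP_norm_le h0 hz'
      have h2 : Nat.log 2 n + 1 ≤ k := by
        have := (Nat.log_lt_iff_lt_pow (by norm_num : 1 < 2) h0).2 hn'
        omega
      have h3 : ((Nat.log 2 n + 1 : ℕ) : ℝ) ≤ k := by exact_mod_cast h2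
      push_cast at h3
      linarith
  · intro h
    obtain ⟨z, hz⟩ := z
    rw [XX_S] at hz
    obtain ⟨x, hx, rfl⟩ := hz
    simp only at h
    obtain ⟨n, hn⟩ := cover hx
    by_cases hlt : n < 2 ^ k
    · exact ⟨n, Finset.mem_range.2 hlt, hn⟩
    · push Not at hlt
      have h0 : n ≠ 0 := by
        have : 0 < 2 ^ k := by positivity
        omega
      have h1 := PP_norm_ge h0 hn
      have h2 : k ≤ Nat.log 2 n := (Nat.le_log_iff_pow_le (by norm_num) h0).2 hlt
      have h3 : (k : ℝ) ≤ Nat.log 2 n := by exact_mod_cast h2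
      have h4 : Nat.log 2 n = k := by
        have : (Nat.log 2 n : ℝ) = k := le_antisymm (by linarith) h3
        exact_mod_cast this
      rcases cases_vertex n with rfl | ⟨L, j, hj, rfl⟩
      · exact absurd rfl h0
      · rw [log_add hj] at h4 h1
        subst h4
        rw [PP_eq hj] at hn
        have hx1 : x.1 ≤ L + 1 := by
          rw [pp_norm] at h
          exact (le_max_left _ _).trans h
        rcases Nat.eq_zero_or_pos L with h5 | h5
        · subst h5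
          refine ⟨0, Finset.mem_range.2 (by norm_num), ?_⟩
          change pp x ∈ PP 0
          rw [PP_zero, mem_Q0]
          exact ⟨hx, by simpa using hx1⟩
        · obtain ⟨M, rfl⟩ := Nat.exists_eq_succ_of_ne_zero h5.ne'
          obtain ⟨p1, p2⟩ := half_add (L := M) hj
          have h6 := QQ_parent hn (by push_cast at hx1; linarith)
          refine ⟨2 ^ M + j / 2, Finset.mem_range.2 ?_, ?_⟩
          · rw [Nat.succ_eq_add_one, pow_succ]
            omega
          · change pp x ∈ PP (2 ^ M + j / 2)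
            rw [PP_eq p2]
            exact h6

lemma Fk_conn (N : ℕ) : IsConnected (XX.sub (Finset.range (N + 1))) := by
  induction N with
  | zero =>
    have h : XX.sub (Finset.range (0 + 1)) = XX.poly (0 : ℕ) := by
      ext z
      rw [RigidSurface.mem_sub]
      constructor
      · rintro ⟨(n : ℕ), hn, hz⟩
        have h1 : n < 0 + 1 := Finset.mem_range.1 hn
        have : n = 0 := by omega
        subst this
        exact hz
      · intro h
        exact ⟨0, Finset.mem_range.2 (by norm_num), h⟩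
    rw [h]
    exact RigidSurface.poly_conn _
  | succ N ih =>
    have h : XX.sub (Finset.range (N + 1 + 1))
        = XX.sub (Finset.range (N + 1)) ∪ XX.poly (N + 1 : ℕ) := by
      ext z
      rw [mem_union, RigidSurface.mem_sub, RigidSurface.mem_sub]
      constructor
      · rintro ⟨(n : ℕ), hn, hz⟩
        have h1 : n < N + 1 + 1 := Finset.mem_range.1 hn
        by_cases h2 : n = N + 1
        · subst h2
          exact Or.inr hz
        · exact Or.inl ⟨n, Finset.mem_range.2 (by omega), hz⟩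
      · rintro (⟨(n : ℕ), hn, hz⟩ | hz)
        · have h1 : n < N + 1 := Finset.mem_range.1 hn
          exact ⟨n, Finset.mem_range.2 (by omega), hz⟩
        · exact ⟨N + 1, Finset.mem_range.2 (by omega), hz⟩
    rw [h]
    obtain ⟨y, hy1, hy2⟩ := RigidSurface.adj_nonempty (X := XX) (v := ((N + 1) / 2 : ℕ))
      (w := (N + 1 : ℕ)) (TT_half (by omega))
    exact IsConnected.union ⟨y, RigidSurface.mem_sub.2
      ⟨(N + 1) / 2, Finset.mem_range.2 (by omega), hy1⟩, hy2⟩ ih (RigidSurface.poly_conn _)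

lemma Fk_adm (k : ℕ) : XX.Admissible (Fk k) := by
  refine ⟨⟨0, Finset.mem_range.2 (by positivity)⟩, ?_⟩
  obtain ⟨N, hN⟩ := Nat.exists_eq_succ_of_ne_zero (show 2 ^ k ≠ 0 by positivity)
  unfold Fk
  rw [hN]
  exact Fk_conn N

lemma norm_iff {k : ℕ} {x : ℝ × ℝ} : ‖pp x‖ ≤ k + 1 ↔ x.1 ≤ k + 1 := by
  rw [pp_norm, max_le_iff]
  have hk : (0 : ℝ) ≤ k := by positivity
  exact ⟨fun h => h.1, fun h => ⟨h, by linarith⟩⟩

lemma fk_sub (k : ℕ) : fk k '' XX.sub (Fk k) = XX.sub (Fk k) := by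
  have key : ∀ z : XX.S, fk k z ∈ XX.sub (Fk k) ↔ z ∈ XX.sub (Fk k) := by
    intro z
    rw [mem_subF, mem_subF, fk_val]
    obtain ⟨x, hx⟩ := pp_surj (z : ℂ)
    rw [← hx, rk_pp, norm_iff, norm_iff, RR_le]
  ext z
  constructor
  · rintro ⟨y, hy, rfl⟩
    exact (key y).2 hy
  · intro hz
    refine ⟨(fk k).symm z, ?_, (fk k).apply_symm_apply z⟩
    rw [← key, (fk k).apply_symm_apply]
    exact hz

/-- the image of a polygon outside the disc is a polygon -/
lemma rk_QQ {k L j : ℕ} (hk : k ≤ L) :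
    ∃ j' < 2 ^ L, ∀ x : ℝ × ℝ, pp (RR k x) ∈ QQ L j' ↔ pp x ∈ QQ L j := by
  have hpz : (0 : ℤ) < 2 ^ L := by positivity
  set i : ℤ := (j + 2 ^ (L - k)) with hi
  have hj0 : 0 ≤ i % 2 ^ L := Int.emod_nonneg _ hpz.ne'
  have hj1 : i % 2 ^ L < 2 ^ L := Int.emod_lt_of_pos _ hpz
  obtain ⟨j', hj'⟩ := Int.eq_ofNat_of_zero_le hj0
  have hj2 : j' < 2 ^ L := by
    have : (j' : ℤ) < 2 ^ L := by rw [← hj']; exact hj1
    exact_mod_cast this
  refine ⟨j', hj2, fun x => ?_⟩
  have hkL : (k : ℝ) ≤ L := by exact_mod_cast hk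
  have hd : (i / 2 ^ L) * 2 ^ L + j' = i := by
    have := Int.ediv_mul_add_emod i (2 ^ L)
    rw [hj'] at this
    exact_mod_cast this
  have hd' : (((i / 2 ^ L : ℤ) : ℝ)) * 2 ^ L + j' = j + 2 ^ (L - k) := by
    have : (((i / 2 ^ L * 2 ^ L + j' : ℤ)) : ℝ) = ((i : ℤ) : ℝ) := by rw [hd]
    rw [hi] at this
    push_cast at this
    exact this
  have hp : (0 : ℝ) < 2 ^ L := by positivity
  have hpk : (2 : ℝ) ^ (L - k) / 2 ^ L = 1 / 2 ^ k := by
    have h2 : (2 : ℝ) ^ L = 2 ^ (L - k) * 2 ^ k := by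
      rw [← pow_add]
      congr 1
      omega
    rw [h2]
    field_simp
  have e1 : (j : ℝ) / 2 ^ L + 1 / 2 ^ k = (i / 2 ^ L : ℤ) + j' / 2 ^ L := by
    rw [← hpk]
    field_simp
    linarith
  have e2 : ((j : ℝ) + 1) / 2 ^ L + 1 / 2 ^ k = (i / 2 ^ L : ℤ) + (j' + 1) / 2 ^ L := by
    rw [add_div, add_div]
    linarith
  rw [mem_QQ, mem_QQ, RR_Sk]
  by_cases hx : k + 1 ≤ x.1
  · rw [RR_large k hx]
    simp only [Prod.fst_add, Prod.snd_add, add_zero]
    refine and_congr Iff.rfl (and_congr Iff.rfl (and_congr Iff.rfl ?_))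
    constructor
    · rintro ⟨m, h1, h2⟩
      refine ⟨m + i / 2 ^ L, ?_, ?_⟩ <;> push_cast <;> linarith
    · rintro ⟨m, h1, h2⟩
      refine ⟨m - i / 2 ^ L, ?_, ?_⟩ <;> push_cast <;> linarith
  · have h1 : ¬ (L : ℝ) + 1 ≤ x.1 := fun h => hx (by linarith)
    have h2 : (RR k x).1 ≤ k + 1 := (RR_le k x).2 (by push Not at hx; exact hx.le)
    constructor
    · rintro ⟨-, h3, -⟩
      exfalso
      have h4 : ((k : ℝ)) = L := by linarith
      have h5 : (RR k x).1 = k + 1 := by linarith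
      have h6 : RR k (RR k x - (0, 1 / 2 ^ k)) = RR k x := by
        rw [RR_large k (x := RR k x - (0, 1 / 2 ^ k)) (by simp [h5]), sub_add_cancel]
      have h7 := (RR k).injective h6
      have h8 : x.1 = (RR k x).1 := by
        have := congrArg Prod.fst h7
        simp only [Prod.fst_sub, sub_zero] at this
        exact this.symm
      rw [h5] at h8
      exact hx h8.ge
    · rintro ⟨-, h3, -⟩
      exact absurd h3 h1

lemma fk_wit (k : ℕ) : XX.Wit (fk k) (Fk k) (Fk k) := by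
  refine ⟨Fk_adm k, Fk_adm k, fk_sub k, fun (n : ℕ) hn => ?_⟩
  have hn' : 2 ^ k ≤ n := by
    by_contra h
    push Not at h
    exact hn (Finset.mem_range.2 h)
  rcases cases_vertex n with rfl | ⟨L, j, hj, rfl⟩
  · have : 0 < 2 ^ k := by positivity
    omega
  · have hk : k ≤ L := by
      have h1 : 2 ^ k < 2 ^ (L + 1) := by
        rw [pow_succ]
        omega
      have := (Nat.pow_lt_pow_iff_right (by norm_num : 1 < 2)).1 h1
      omega
    obtain ⟨j', hj', h⟩ := rk_QQ (j := j) hk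
    refine ⟨2 ^ L + j', fun h1 => ?_, ?_⟩
    · have h2 : 2 ^ L + j' < 2 ^ k := Finset.mem_range.1 h1
      have h3 : 2 ^ k ≤ 2 ^ L := Nat.pow_le_pow_right (by norm_num) hk
      omega
    · have key : ∀ z : XX.S, fk k z ∈ XX.poly (2 ^ L + j' : ℕ) ↔ z ∈ XX.poly (2 ^ L + j : ℕ) := by
        intro z
        change (fk k z : ℂ) ∈ PP (2 ^ L + j') ↔ (z : ℂ) ∈ PP (2 ^ L + j)
        rw [fk_val, PP_eq hj, PP_eq hj']
        obtain ⟨x, hx⟩ := pp_surj (z : ℂ)
        rw [← hx, rk_pp]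
        exact h x
      ext z
      constructor
      · rintro ⟨y, hy, rfl⟩
        exact (key y).2 hy
      · intro hz
        refine ⟨(fk k).symm z, ?_, (fk k).apply_symm_apply z⟩
        rw [← key, (fk k).apply_symm_apply]
        exact hz

/-- the isotopy of the plane from the identity to `r k` -/
lemma fk_or (k : ℕ) : XX.OrPres (fk k) := by
  intro z
  let h : ℂ ≃ₜ ℂ := Dsc ⟨HH k, HH_mem k⟩
  refine ⟨univ, Filter.univ_mem, fun x => h.symm (ee (x.1 / 2 ^ k) * h x.2), ?_, ?_, ?_, ?_⟩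
  · have := ee_cont
    exact Continuous.continuousOn (by fun_prop)
  · intro s _ x _ y _ hxy
    simp only at hxy
    have h1 := h.symm.injective hxy
    have h2 := mul_left_cancel₀ (ee_ne _) h1
    exact Subtype.ext (h.injective h2)
  · intro x _
    have : ee (0 / 2 ^ k) = 1 := by
      unfold ee
      simp
    simp only
    rw [this, one_mul, h.symm_apply_apply]
  · intro x _
    simp only
    rw [fk_val, Homeomorph.symm_apply_eq]
    obtain ⟨y, hy⟩ := pp_surj (x : ℂ)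
    rw [← hy, rk_pp]
    change ee (1 / 2 ^ k) * Dsc ⟨HH k, HH_mem k⟩ (pp y) = Dsc ⟨HH k, HH_mem k⟩ (pp (RR k y))
    rw [Dsc_pp, Dsc_pp]
    change ee (1 / 2 ^ k) * pp (HH k y) = pp (HH k (RR k y))
    rw [HH_RR, Tk_apply]
    unfold pp ee
    simp only [Prod.fst_add, Prod.snd_add, add_zero]
    rw [mul_left_comm, ← Complex.exp_add]
    congr 2
    push_cast
    ring

lemma marked_iff (z : XX.S) : z ∈ XX.marked ↔ ∃ x ∈ Vk 0, (z : ℂ) = pp x := by
  constructor
  · rintro ⟨n, hn⟩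
    have hn' : (z : ℂ) = ptt n := hn
    rcases cases_vertex n with rfl | ⟨L, j, hj, rfl⟩
    · refine ⟨_, Or.inl ⟨0, rfl⟩, ?_⟩
      rw [hn', ptt_zero]
      simp
    · refine ⟨_, Or.inr ⟨L + 1, by omega, 2 * j + 1, ⟨j, rfl⟩, rfl⟩, ?_⟩
      rw [hn', ptt_eq hj]
      unfold cc
      push_cast
      congr 2
      ring
  · rintro ⟨x, hx, hz⟩
    rcases hx with ⟨m, rfl⟩ | ⟨l, hl, m, hm, rfl⟩
    · refine ⟨0, ?_⟩
      change (z : ℂ) = ptt 0
      rw [hz, ptt_zero, pp_eq]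
      right
      exact ⟨rfl, m, by simp⟩
    · obtain ⟨L, rfl⟩ := Nat.exists_eq_succ_of_ne_zero (show l ≠ 0 by omega)
      obtain ⟨i, rfl⟩ := hm
      have hpz : (0 : ℤ) < 2 ^ L := by positivity
      have hj0 : 0 ≤ i % 2 ^ L := Int.emod_nonneg _ hpz.ne'
      have hj1 : i % 2 ^ L < 2 ^ L := Int.emod_lt_of_pos _ hpz
      obtain ⟨j, hj⟩ := Int.eq_ofNat_of_zero_le hj0
      have hj2 : j < 2 ^ L := by
        have : (j : ℤ) < 2 ^ L := by rw [← hj]; exact hj1
        exact_mod_cast this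
      have hd : (i / 2 ^ L) * 2 ^ L + j = i := by
        have := Int.ediv_mul_add_emod i (2 ^ L)
        rw [hj] at this
        exact_mod_cast this
      refine ⟨(2 ^ L + j : ℕ), ?_⟩
      change (z : ℂ) = ptt (2 ^ L + j)
      rw [hz, ptt_eq hj2, pp_eq]
      right
      refine ⟨by push_cast; ring, i / 2 ^ L, ?_⟩
      simp only
      unfold cc
      have hd' : (((i / 2 ^ L : ℤ) : ℝ)) * 2 ^ L + j = i := by exact_mod_cast hd
      push_cast
      rw [Nat.succ_eq_add_one, pow_succ]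
      rw [← hd']
      field_simp
      ring

lemma fk_marked (k : ℕ) : fk k '' XX.marked = XX.marked := by
  have key : ∀ z : XX.S, fk k z ∈ XX.marked ↔ z ∈ XX.marked := by
    intro z
    rw [marked_iff, marked_iff, fk_val]
    obtain ⟨y, hy⟩ := pp_surj (z : ℂ)
    rw [← hy, rk_pp]
    have hV : ∀ a b : ℝ × ℝ, pp a = pp b → b ∈ Vk 0 → a ∈ Vk 0 := by
      intro a b hab hb
      have hb0 : 0 < b.1 := by
        rcases hb with ⟨m, rfl⟩ | ⟨l, hl, m, hm, rfl⟩
        · norm_num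
        · simp only
          positivity
      rw [pp_eq] at hab
      rcases hab with ⟨-, h⟩ | ⟨h1, m, h2⟩
      · linarith
      · rw [eq_add_int h1 h2]
        have := Vk_add (k := 0) m hb
        simpa using this
    constructor
    · rintro ⟨x, hx, hx2⟩
      exact ⟨y, (RR_Vk k).1 (hV _ _ hx2 hx), rfl⟩
    · rintro ⟨x, hx, hx2⟩
      exact ⟨RR k y, (RR_Vk k).2 (hV _ _ hx2 hx), rfl⟩
  ext z
  constructor
  · rintro ⟨y, hy, rfl⟩
    exact (key y).2 hy
  · intro hz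
    refine ⟨(fk k).symm z, ?_, (fk k).apply_symm_apply z⟩
    rw [← key, (fk k).apply_symm_apply]
    exact hz

/-- `r k` as an element of the group of asymptotically rigid homeomorphisms -/
noncomputable def gk (k : ℕ) : XX.Grp := ⟨fk k, fk_marked k, ⟨_, _, fk_wit k⟩, fk_or k⟩

lemma gk_sq (k : ℕ) : gk (k + 1) * gk (k + 1) = gk k := Subtype.ext (fk_sq k)

lemma gk_zero : gk 0 = 1 := Subtype.ext fk_zero

/-- the class of `r k` in the mapping class group -/
noncomputable def ck (k : ℕ) : XX.Mod := XX.cls (gk k)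

lemma ck_sq (k : ℕ) : ck (k + 1) ^ 2 = ck k := by
  unfold ck
  rw [pow_two, ← map_mul, gk_sq]

lemma ck_zero : ck 0 = 1 := by
  unfold ck
  rw [gk_zero, map_one]

lemma ck_one : ck 1 ≠ 1 := by
  intro h
  have h1 : gk 1 ∈ XX.Iso.subgroupOf XX.Grp := (QuotientGroup.eq_one_iff _).1 h
  have h1' : XX.Isotopic (fk 1) := h1
  obtain ⟨Ψ, -, h2, -, h3⟩ := h1'
  have hx : XX.ptS (0 : ℕ) ∈ XX.marked := ⟨(0 : ℕ), rfl⟩
  have h4 := h3 (XX.ptS (0 : ℕ))
  rw [h2 1 _ hx] at h4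
  have h5 : XX.ptS (0 : ℕ) = fk 1 (XX.ptS (0 : ℕ)) := congrArg Prod.snd h4
  have h6 := congrArg Subtype.val h5
  rw [fk_val] at h6
  have h7 : (XX.ptS (0 : ℕ) : ℂ) = pp (1 / 3, 0) := ptt_zero
  rw [h7, rk_pp, RR_one, pp_eq] at h6
  norm_num at h6

lemma ck_pow (k d : ℕ) : ck (k + d) ^ 2 ^ d = ck k := by
  induction d with
  | zero => simp
  | succ d ih =>
    rw [pow_succ', pow_mul, ← add_assoc, ck_sq, ih]

lemma ck_order (k : ℕ) : orderOf (ck k) = 2 ^ k := by
  rcases Nat.eq_zero_or_pos k with rfl | h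
  · rw [ck_zero]
    simp
  · obtain ⟨d, rfl⟩ := Nat.exists_eq_succ_of_ne_zero h.ne'
    refine orderOf_eq_prime_pow ?_ ?_
    · have := ck_pow 1 d
      rw [add_comm 1 d] at this
      rw [Nat.succ_eq_add_one, this]
      exact ck_one
    · have := ck_pow 0 (d + 1)
      rw [zero_add] at this
      rw [Nat.succ_eq_add_one, this, ck_zero]

/-- the subgroup generated by the classes of the `r k` -/
noncomputable def HHH : Subgroup XX.Mod := ⨆ k, Subgroup.zpowers (ck k)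

lemma ck_mono : Monotone fun k => Subgroup.zpowers (ck k) := by
  refine monotone_nat_of_le_succ fun k => ?_
  rw [Subgroup.zpowers_le, ← ck_sq k]
  exact pow_mem (Subgroup.mem_zpowers _) 2

lemma mem_HHH {x : XX.Mod} : x ∈ HHH ↔ ∃ k, x ∈ Subgroup.zpowers (ck k) :=
  Subgroup.mem_iSup_of_directed (K := fun k => Subgroup.zpowers (ck k)) ck_mono.directed_le

lemma HHH_comm {x y : XX.Mod} (hx : x ∈ HHH) (hy : y ∈ HHH) : x * y = y * x := by
  obtain ⟨k, hk⟩ := mem_HHH.1 hx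
  obtain ⟨l, hl⟩ := mem_HHH.1 hy
  have h1 := ck_mono (le_max_left k l) hk
  have h2 := ck_mono (le_max_right k l) hl
  obtain ⟨a, rfl⟩ := Subgroup.mem_zpowers_iff.1 h1
  obtain ⟨b, rfl⟩ := Subgroup.mem_zpowers_iff.1 h2
  rw [← zpow_add, ← zpow_add, add_comm]

lemma HHH_pow {x : XX.Mod} (hx : x ∈ HHH) : ∃ k : ℕ, x ^ 2 ^ k = 1 := by
  obtain ⟨k, hk⟩ := mem_HHH.1 hx
  obtain ⟨a, rfl⟩ := Subgroup.mem_zpowers_iff.1 hk
  refine ⟨k, ?_⟩
  rw [← zpow_natCast, ← zpow_mul, mul_comm, zpow_mul, zpow_natCast, ← ck_order k,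
    pow_orderOf_eq_one, one_zpow]

lemma HHH_div {x : XX.Mod} (hx : x ∈ HHH) : ∃ y ∈ HHH, y ^ 2 = x := by
  obtain ⟨k, hk⟩ := mem_HHH.1 hx
  obtain ⟨a, rfl⟩ := Subgroup.mem_zpowers_iff.1 hk
  refine ⟨ck (k + 1) ^ a, mem_HHH.2 ⟨k + 1, Subgroup.zpow_mem _ (Subgroup.mem_zpowers _) a⟩, ?_⟩
  rw [← ck_sq k, ← zpow_natCast, ← zpow_natCast, ← zpow_mul, ← zpow_mul, mul_comm]

lemma ck_mem (k : ℕ) : ck k ∈ HHH := mem_HHH.2 ⟨k, Subgroup.mem_zpowers _⟩

lemma HHH_infinite : Infinite HHH := by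
  refine Infinite.of_injective (fun k : ℕ => (⟨ck k, ck_mem k⟩ : HHH)) fun k l h => ?_
  have h1 : ck k = ck l := congrArg Subtype.val h
  have h2 := ck_order k
  rw [h1, ck_order l] at h2
  exact (Nat.pow_right_injective (le_refl 2) h2).symm

lemma HHH_closure : HHH = Subgroup.closure (range ck) := by
  apply le_antisymm
  · refine iSup_le fun k => ?_
    rw [Subgroup.zpowers_le]
    exact Subgroup.subset_closure ⟨k, rfl⟩
  · rw [Subgroup.closure_le]
    rintro _ ⟨k, rfl⟩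
    exact ck_mem k

lemma HHH_div_pow (k : ℕ) {x : XX.Mod} (hx : x ∈ HHH) : ∃ y ∈ HHH, y ^ 2 ^ k = x := by
  induction k with
  | zero => exact ⟨x, hx, by simp⟩
  | succ k ih =>
    obtain ⟨y, hy, rfl⟩ := ih
    obtain ⟨z, hz, rfl⟩ := HHH_div hy
    exact ⟨z, hz, by rw [pow_succ', pow_mul]⟩

lemma XX_tree : (XX.T.neighborSet (0 : ℕ)).ncard = 1 ∧
    ∀ v : ℕ, v ≠ 0 → (XX.T.neighborSet v).ncard = 3 :=
  ⟨TT_deg_zero, fun _ h => TT_deg h⟩

end Pool.Agent.Q238.AR
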