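import Pool.Agent.Q238.AR.Plane

/-!
# The surface in polar coordinates and the maps `Φ k`
-/

set_option autoImplicit false

namespace Pool.Agent.Q238.AR

open Set Topology

/-- half width of the notches at radius `k + 1` -/
noncomputable def wk (k : ℕ) : ℝ := (1 / 2) ^ (k + 3)

/-- half width of the old notches at radius `r` -/
noncomputable def GG (r : ℝ) : ℝ := (2 : ℝ) ^ (-(r + 2))

/-- half width of the notches of level `l` -/
noncomputable def NN (l : ℕ) (r : ℝ) : ℝ :=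
  if r ≤ l + 1 then 3 * wk l * (r - (l + 2 / 3)) else GG r

noncomputable def MM (k : ℕ) (r : ℝ) : ℝ := wk k * (r - 2 / 3) / (k + 1 / 3)

noncomputable def AA (k : ℕ) (r : ℝ) : ℝ := if r ≤ k + 1 then MM k r else GG r

/-- the surface in the `k`-th polar coordinates; `Sk 0` is the surface itself -/
def Sk (k : ℕ) : Set (ℝ × ℝ) :=
  {x | (∀ m : ℤ, AA k x.1 ≤ |x.2 - m / 2 ^ k|) ∧
    ∀ l, k < l → ∀ m : ℤ, Odd m → NN l x.1 ≤ |x.2 - m / 2 ^ l|}

/-- the punctures in the `k`-th polar coordinates -/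
def Vk (k : ℕ) : Set (ℝ × ℝ) :=
  {x | (∃ m : ℤ, x = ((1 : ℝ) / 3, (m : ℝ) / 2 ^ k)) ∨ ∃ l : ℕ, k < l ∧ ∃ m : ℤ, Odd m ∧
    x = ((l : ℝ) + 1 / 3, (m : ℝ) / 2 ^ l)}

lemma wk_pos (k : ℕ) : 0 < wk k := by unfold wk; positivity

lemma wk_succ (k : ℕ) : wk (k + 1) = wk k / 2 := by
  unfold wk
  rw [show k + 1 + 3 = (k + 3) + 1 by ring, pow_succ]
  ring

lemma wk_mul (k : ℕ) : wk k * 2 ^ k = 1 / 8 := by
  unfold wk
  rw [pow_add, one_div, inv_pow]
  field_simp
  norm_num

lemma GG_pos (r : ℝ) : 0 < GG r := by unfold GG; positivity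

lemma GG_nat (k : ℕ) : GG (k + 1) = wk k := by
  unfold GG wk
  rw [Real.rpow_neg (by norm_num), one_div, inv_pow]
  congr 1
  rw [show (k : ℝ) + 1 + 2 = ((k + 3 : ℕ) : ℝ) by push_cast; ring, Real.rpow_natCast]

lemma GG_anti {r s : ℝ} (h : r ≤ s) : GG s ≤ GG r := by
  unfold GG
  exact Real.rpow_le_rpow_of_exponent_le (by norm_num) (by linarith)

lemma GG_cont : Continuous GG := by
  unfold GG
  exact Continuous.rpow continuous_const (by fun_prop) (fun x => Or.inl (by norm_num))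

lemma MM_le {k : ℕ} {r : ℝ} (h : r ≤ k + 1) : MM k r ≤ wk k := by
  unfold MM
  have := wk_pos k
  have hk : (0 : ℝ) < k + 1 / 3 := by positivity
  rw [div_le_iff₀ hk]
  nlinarith

lemma MM_nonpos {k : ℕ} {r : ℝ} (h : r ≤ 2 / 3) : MM k r ≤ 0 := by
  unfold MM
  have := wk_pos k
  have hk : (0 : ℝ) < k + 1 / 3 := by positivity
  rw [div_le_iff₀ hk]
  nlinarith

lemma MM_pos {k : ℕ} {r : ℝ} (h : 2 / 3 < r) : 0 < MM k r := by
  unfold MM
  have := wk_pos k
  have : 0 < r - 2 / 3 := by linarith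
  positivity

lemma MM_top (k : ℕ) : MM k (k + 1) = wk k := by
  unfold MM
  have hk : (0 : ℝ) < k + 1 / 3 := by positivity
  rw [div_eq_iff hk.ne']
  ring

lemma NN_le {l : ℕ} {r : ℝ} (h : r ≤ l + 1) : NN l r ≤ wk l := by
  unfold NN
  rw [if_pos h]
  have := wk_pos l
  nlinarith

lemma NN_nonpos {l : ℕ} {r : ℝ} (h : r ≤ l + 2 / 3) : NN l r ≤ 0 := by
  unfold NN
  rw [if_pos (by linarith)]
  have := wk_pos l
  nlinarith

/-- the monotone function of degree one which collapses the intervals of radius `1/8` around the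
integers -/
noncomputable def g1 (x : ℝ) : ℝ := max 0 (min (7 / 5 * (x - 1 / 8)) x)

noncomputable def g2 (x : ℝ) : ℝ := min 1 (max (1 - 7 / 5 * (7 / 8 - x)) x)

noncomputable def gg (x : ℝ) : ℝ := g2 (g1 x)

noncomputable def gam (u : ℝ) : ℝ := ⌊u⌋ + gg (Int.fract u)

lemma g1_mono : Monotone g1 := by
  intro x y h
  unfold g1
  exact max_le_max le_rfl (min_le_min (by linarith) h)

lemma g2_mono : Monotone g2 := by
  intro x y h
  unfold g2
  exact min_le_min le_rfl (max_le_max (by linarith) h)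

lemma gg_mono : Monotone gg := g2_mono.comp g1_mono

lemma gg_zero : gg 0 = 0 := by norm_num [gg, g1, g2]

lemma gg_one : gg 1 = 1 := by norm_num [gg, g1, g2]

lemma gg_small {x : ℝ} (h : x ≤ 1 / 8) : gg x = 0 := by
  have h1 : g1 x = 0 := by
    unfold g1
    exact max_eq_left ((min_le_left _ _).trans (by linarith))
  unfold gg
  rw [h1]
  norm_num [g2]

lemma gg_large {x : ℝ} (h : 7 / 8 ≤ x) : gg x = 1 := by
  have h1 : g1 x = x := by
    unfold g1
    rw [min_eq_right (by linarith), max_eq_right (by linarith)]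
  unfold gg g2
  rw [h1, min_eq_left]
  exact le_max_of_le_left (by linarith)

lemma gg_mid {x : ℝ} (h1 : 7 / 16 ≤ x) (h2 : x ≤ 9 / 16) : gg x = x := by
  have h3 : g1 x = x := by
    unfold g1
    rw [min_eq_right (by linarith), max_eq_right (by linarith)]
  unfold gg g2
  rw [h3, max_eq_right (by linarith), min_eq_right (by linarith)]

lemma gg_mem {x : ℝ} (h0 : 0 ≤ x) (h1 : x ≤ 1) : 0 ≤ gg x ∧ gg x ≤ 1 :=
  ⟨gg_zero ▸ gg_mono h0, gg_one ▸ gg_mono h1⟩

lemma gg_cont : Continuous gg := by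
  unfold gg g2 g1
  fun_prop

lemma gam_cont : Continuous gam := by
  have h1 : Continuous fun u : ℝ => (fun x => gg x - x) (Int.fract u) := by
    refine ContinuousOn.comp_fract'' (gg_cont.sub continuous_id).continuousOn ?_
    simp [gg_zero, gg_one]
  have h2 : gam = fun u => u + (gg (Int.fract u) - Int.fract u) := by
    funext u
    unfold gam
    have := Int.floor_add_fract u
    linarith
  rw [h2]
  exact continuous_id.add h1

lemma gam_mono : Monotone gam := by
  intro x y h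
  unfold gam
  rcases (Int.floor_le_floor h).eq_or_lt with h1 | h1
  · have h2 : Int.fract x ≤ Int.fract y := by
      unfold Int.fract
      rw [h1]
      linarith
    rw [h1]
    linarith [gg_mono h2]
  · have h2 : (⌊x⌋ : ℝ) + 1 ≤ ⌊y⌋ := by exact_mod_cast h1
    have h3 := (gg_mem (Int.fract_nonneg x) (Int.fract_lt_one x).le).2
    have h4 := (gg_mem (Int.fract_nonneg y) (Int.fract_lt_one y).le).1
    linarith

lemma gam_add (u : ℝ) (m : ℤ) : gam (u + m) = gam u + m := by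
  unfold gam
  rw [Int.floor_add_intCast, Int.fract_add_intCast]
  push_cast
  ring

lemma gam_near {u : ℝ} (m : ℤ) (h : |u - m| ≤ 1 / 8) : gam u = m := by
  have h1 : u = (u - m) + m := by ring
  obtain ⟨h2, h3⟩ := abs_le.1 h
  rw [h1, gam_add]
  generalize u - m = v at h2 h3
  suffices gam v = 0 by linarith
  unfold gam
  by_cases hv : 0 ≤ v
  · have h4 : ⌊v⌋ = 0 := by
      rw [Int.floor_eq_iff]
      constructor <;> push_cast <;> linarith
    have h5 : Int.fract v = v := by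
      unfold Int.fract
      rw [h4]
      simp
    rw [h4, h5, gg_small (by linarith)]
    simp
  · push Not at hv
    have h4 : ⌊v⌋ = -1 := by
      rw [Int.floor_eq_iff]
      constructor <;> push_cast <;> linarith
    have h5 : Int.fract v = v + 1 := by
      unfold Int.fract
      rw [h4]
      push_cast
      ring
    rw [h4, h5, gg_large (by linarith)]
    simp

lemma gam_mid {u : ℝ} (m : ℤ) (h : |u - (m + 1 / 2)| ≤ 1 / 16) : gam u = u := by
  have h1 : u = (u - m) + m := by ring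
  obtain ⟨h2, h3⟩ := abs_le.1 h
  rw [h1, gam_add]
  have h2' : -(1 / 16) ≤ (u - m) - 1 / 2 := by linarith
  have h3' : (u - m) - 1 / 2 ≤ 1 / 16 := by linarith
  generalize u - m = v at h2' h3'
  have h4 : ⌊v⌋ = 0 := by
    rw [Int.floor_eq_iff]
    constructor <;> push_cast <;> linarith
  have h5 : Int.fract v = v := by
    unfold Int.fract
    rw [h4]
    simp
  unfold gam
  rw [h4, h5, gg_mid (by linarith) (by linarith)]
  simp

lemma gam_near_id (u : ℝ) : |gam u - u| ≤ 1 := by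
  unfold gam
  have h := gg_mem (Int.fract_nonneg u) (Int.fract_lt_one u).le
  have h1 := Int.floor_add_fract u
  have h2 := Int.fract_nonneg u
  have h3 := (Int.fract_lt_one u).le
  rw [abs_le]
  constructor <;> linarith [h.1, h.2]

/-- the weight of the radial map: `0` near the integers, `1` near the half integers -/
noncomputable def vv (u : ℝ) : ℝ :=
  max 0 (min 1 ((min (Int.fract u) (1 - Int.fract u) - 1 / 16) * (8 / 3)))

lemma vv_cont : Continuous vv := by
  have h1 : Continuous fun u : ℝ =>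
      (fun x : ℝ => max 0 (min 1 ((min x (1 - x) - 1 / 16) * (8 / 3)))) (Int.fract u) := by
    have h0 : Continuous fun x : ℝ => max (0 : ℝ) (min 1 ((min x (1 - x) - 1 / 16) * (8 / 3))) := by
      fun_prop
    refine ContinuousOn.comp_fract'' h0.continuousOn ?_
    norm_num
  exact h1

lemma vv_nonneg (u : ℝ) : 0 ≤ vv u := le_max_left _ _

lemma vv_le (u : ℝ) : vv u ≤ 1 := max_le zero_le_one (min_le_left _ _)

lemma vv_add (u : ℝ) (m : ℤ) : vv (u + m) = vv u := by
  unfold vv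
  rw [Int.fract_add_intCast]

lemma vv_near {u : ℝ} (m : ℤ) (h : |u - m| ≤ 1 / 16) : vv u = 0 := by
  have h1 : u = (u - m) + m := by ring
  obtain ⟨h2, h3⟩ := abs_le.1 h
  rw [h1, vv_add]
  generalize u - m = v at h2 h3
  unfold vv
  refine max_eq_left ((min_le_right _ _).trans ?_)
  have : min (Int.fract v) (1 - Int.fract v) ≤ 1 / 16 := by
    by_cases hv : 0 ≤ v
    · have h4 : ⌊v⌋ = 0 := by
        rw [Int.floor_eq_iff]
        constructor <;> push_cast <;> linarith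
      have h5 : Int.fract v = v := by
        unfold Int.fract
        rw [h4]
        simp
      rw [h5]
      exact (min_le_left _ _).trans h3
    · push Not at hv
      have h4 : ⌊v⌋ = -1 := by
        rw [Int.floor_eq_iff]
        constructor <;> push_cast <;> linarith
      have h5 : Int.fract v = v + 1 := by
        unfold Int.fract
        rw [h4]
        push_cast
        ring
      rw [h5]
      exact (min_le_right _ _).trans (by linarith)
  nlinarith

lemma vv_mid {u : ℝ} (m : ℤ) (h : |u - (m + 1 / 2)| ≤ 1 / 16) : vv u = 1 := by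
  have h1 : u = (u - m) + m := by ring
  obtain ⟨h2, h3⟩ := abs_le.1 h
  rw [h1, vv_add]
  have h2' : -(1 / 16) ≤ (u - m) - 1 / 2 := by linarith
  have h3' : (u - m) - 1 / 2 ≤ 1 / 16 := by linarith
  generalize u - m = v at h2' h3'
  have h4 : ⌊v⌋ = 0 := by
    rw [Int.floor_eq_iff]
    constructor <;> push_cast <;> linarith
  have h5 : Int.fract v = v := by
    unfold Int.fract
    rw [h4]
    simp
  unfold vv
  rw [h5]
  have h6 : 7 / 16 ≤ min v (1 - v) := le_min (by linarith) (by linarith)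
  rw [min_eq_left (by nlinarith), max_eq_right zero_le_one]

/-- the scaled versions -/
noncomputable def gamk (k : ℕ) (t : ℝ) : ℝ := gam (2 ^ k * t) / 2 ^ k

noncomputable def vvk (k : ℕ) (t : ℝ) : ℝ := vv (2 ^ k * t)

lemma gamk_cont (k : ℕ) : Continuous (gamk k) := by
  unfold gamk
  have := gam_cont
  fun_prop

lemma vvk_cont (k : ℕ) : Continuous (vvk k) := by
  unfold vvk
  have := vv_cont
  fun_prop

lemma gamk_mono (k : ℕ) : Monotone (gamk k) := by
  intro x y h
  unfold gamk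
  have h2 : (0 : ℝ) < 2 ^ k := by positivity
  exact div_le_div_of_nonneg_right (gam_mono (mul_le_mul_of_nonneg_left h h2.le)) h2.le

lemma gamk_add (k : ℕ) (t : ℝ) (m : ℤ) : gamk k (t + m / 2 ^ k) = gamk k t + m / 2 ^ k := by
  unfold gamk
  have h : (2 : ℝ) ^ k * (t + m / 2 ^ k) = 2 ^ k * t + m := by field_simp
  rw [h, gam_add]
  ring

lemma vvk_add (k : ℕ) (t : ℝ) (m : ℤ) : vvk k (t + m / 2 ^ k) = vvk k t := by
  unfold vvk
  have h : (2 : ℝ) ^ k * (t + m / 2 ^ k) = 2 ^ k * t + m := by field_simp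
  rw [h, vv_add]

lemma scale_abs (k : ℕ) (t s : ℝ) : |2 ^ k * t - 2 ^ k * s| = 2 ^ k * |t - s| := by
  rw [← mul_sub, abs_mul, abs_of_pos (by positivity : (0 : ℝ) < 2 ^ k)]

lemma pow_mul_div (k : ℕ) (m : ℝ) : (2 : ℝ) ^ k * (m / 2 ^ k) = m := by field_simp

lemma odd_div {m : ℤ} (hm : Odd m) (k : ℕ) :
    ∃ i : ℤ, (2 : ℝ) ^ k * (m / 2 ^ (k + 1)) = i + 1 / 2 := by
  obtain ⟨i, rfl⟩ := hm
  refine ⟨i, ?_⟩
  push_cast
  field_simp
  ring

lemma gamk_near {k : ℕ} {t : ℝ} (m : ℤ) (h : |t - m / 2 ^ k| ≤ wk k) : gamk k t = m / 2 ^ k := by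
  unfold gamk
  rw [gam_near m]
  have := scale_abs k t (m / 2 ^ k)
  rw [pow_mul_div] at this
  rw [this]
  have h2 : (0 : ℝ) < 2 ^ k := by positivity
  have := wk_mul k
  nlinarith

lemma gamk_mid {k : ℕ} {t : ℝ} {m : ℤ} (hm : Odd m) (h : |t - m / 2 ^ (k + 1)| ≤ wk (k + 1)) :
    gamk k t = t := by
  unfold gamk
  obtain ⟨i, hi⟩ := odd_div hm k
  rw [gam_mid i]
  · field_simp
  have := scale_abs k t (m / 2 ^ (k + 1))
  rw [hi] at this
  rw [this]
  have h2 : (0 : ℝ) < 2 ^ k := by positivity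
  have := wk_mul k
  rw [wk_succ] at h
  nlinarith

lemma vvk_near {k : ℕ} {t : ℝ} (m : ℤ) (h : |t - m / 2 ^ k| ≤ wk (k + 1)) : vvk k t = 0 := by
  unfold vvk
  rw [vv_near m]
  have := scale_abs k t (m / 2 ^ k)
  rw [pow_mul_div] at this
  rw [this]
  have h2 : (0 : ℝ) < 2 ^ k := by positivity
  have := wk_mul k
  rw [wk_succ] at h
  nlinarith

lemma vvk_mid {k : ℕ} {t : ℝ} {m : ℤ} (hm : Odd m) (h : |t - m / 2 ^ (k + 1)| ≤ wk (k + 1)) :
    vvk k t = 1 := by
  unfold vvk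
  obtain ⟨i, hi⟩ := odd_div hm k
  rw [vv_mid i]
  have := scale_abs k t (m / 2 ^ (k + 1))
  rw [hi] at this
  rw [this]
  have h2 : (0 : ℝ) < 2 ^ k := by positivity
  have := wk_mul k
  rw [wk_succ] at h
  nlinarith

/-- the radial map -/
noncomputable def mu (k : ℕ) (r : ℝ) : ℝ :=
  min r (max (r / (3 * k + 4)) (max (r - (k + 1)) (2 / 3 + (3 * k + 4) * (r - (k + 5 / 3)))))

lemma mu_cont (k : ℕ) : Continuous (mu k) := by
  unfold mu
  fun_prop

lemma mu_strict (k : ℕ) : StrictMono (mu k) := by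
  intro x y h
  have hk : (0 : ℝ) < 3 * k + 4 := by positivity
  unfold mu
  refine min_lt_min h (max_lt_max ?_ (max_lt_max (by linarith) (by nlinarith)))
  exact (div_lt_div_iff_of_pos_right hk).2 h

lemma mu_neg {k : ℕ} {r : ℝ} (h : r ≤ 0) : mu k r = r := by
  unfold mu
  refine min_eq_left (le_max_of_le_left ?_)
  have hk : (0 : ℝ) < 3 * k + 4 := by positivity
  rw [le_div_iff₀ hk]
  nlinarith

lemma mu_large {k : ℕ} {r : ℝ} (h : k + 2 ≤ r) : mu k r = r := by
  unfold mu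
  refine min_eq_left (le_max_of_le_right (le_max_of_le_right ?_))
  have hk : (0 : ℝ) ≤ k := by positivity
  nlinarith

lemma mu_near (k : ℕ) (r : ℝ) : |mu k r - r| ≤ k + 2 := by
  by_cases h1 : r ≤ 0
  · rw [mu_neg h1]
    simp
    positivity
  · by_cases h2 : k + 2 ≤ r
    · rw [mu_large h2]
      simp
      positivity
    · push Not at h1 h2
      have h3 := (mu_strict k).monotone h1.le
      have h4 := (mu_strict k).monotone h2.le
      rw [mu_neg le_rfl] at h3
      rw [mu_large le_rfl] at h4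
      rw [abs_le]
      constructor <;> linarith

lemma mu_mark (k : ℕ) : mu k (((k + 1 : ℕ) : ℝ) + 1 / 3) = 1 / 3 := by
  unfold mu
  have hk : (0 : ℝ) ≤ k := by positivity
  have h1 : (((k + 1 : ℕ) : ℝ) + 1 / 3) / (3 * k + 4) = 1 / 3 := by
    push_cast
    field_simp
    ring
  have h2 : (((k + 1 : ℕ) : ℝ) + 1 / 3) - (k + 1) = 1 / 3 := by
    push_cast
    ring
  have h3 : 2 / 3 + (3 * (k : ℝ) + 4) * (((k + 1 : ℕ) : ℝ) + 1 / 3 - (k + 5 / 3)) ≤ 1 / 3 := by
    push_cast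
    nlinarith
  rw [h1, h2, max_eq_left h3, max_self]
  refine min_eq_right ?_
  push_cast
  linarith

lemma mu_tip {k : ℕ} {r : ℝ} (h1 : k + 5 / 3 ≤ r) (h2 : r ≤ k + 2) :
    mu k r = 2 / 3 + (3 * k + 4) * (r - (k + 5 / 3)) := by
  have hk : (0 : ℝ) ≤ k := by positivity
  have e1 : r / (3 * k + 4) ≤ r - (k + 1) := by
    rw [div_le_iff₀ (by positivity)]
    nlinarith
  have e2 : r - (k + 1) ≤ 2 / 3 + (3 * k + 4) * (r - (k + 5 / 3)) := by nlinarith
  have e3 : 2 / 3 + (3 * k + 4) * (r - (k + 5 / 3)) ≤ r := by nlinarith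
  unfold mu
  rw [max_eq_right e2, max_eq_right (e1.trans e2), min_eq_right e3]

lemma mu_small {k : ℕ} {r : ℝ} (h1 : r ≤ k + 5 / 3) : mu k r ≤ 2 / 3 := by
  have h2 := (mu_strict k).monotone h1
  rw [mu_tip le_rfl (by linarith)] at h2
  linarith

/-- the notches of level `k + 1` become standard -/
lemma mu_notch {k : ℕ} {r x : ℝ} (hr : r ≤ k + 2) (hx : 0 ≤ x) :
    x < NN (k + 1) r ↔ x < MM (k + 1) (mu k r) := by
  by_cases h : r ≤ k + 5 / 3
  · have h1 : NN (k + 1) r ≤ 0 := NN_nonpos (by push_cast; linarith)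
    have h2 : MM (k + 1) (mu k r) ≤ 0 := MM_nonpos (mu_small h)
    constructor <;> intro h3 <;> linarith
  · push Not at h
    rw [mu_tip h.le hr]
    have hk : (0 : ℝ) ≤ k := by positivity
    have : MM (k + 1) (2 / 3 + (3 * k + 4) * (r - (k + 5 / 3))) = NN (k + 1) r := by
      unfold MM NN
      rw [if_pos (by push_cast; linarith)]
      push_cast
      rw [div_eq_iff (by positivity)]
      ring
    rw [this]

/-- the factor of the angular map -/
noncomputable def cl (k : ℕ) (r : ℝ) : ℝ := max (k + 1) (min r (k + 2))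

noncomputable def lam (k : ℕ) (r : ℝ) : ℝ := MM (k + 1) (cl k r) / GG (cl k r)

lemma cl_ge (k : ℕ) (r : ℝ) : (k : ℝ) + 1 ≤ cl k r := le_max_left _ _

lemma cl_le (k : ℕ) (r : ℝ) : cl k r ≤ k + 2 := max_le (by linarith) (min_le_right _ _)

lemma lam_cont (k : ℕ) : Continuous (lam k) := by
  unfold lam
  have h1 : Continuous (cl k) := by unfold cl; fun_prop
  have h2 : Continuous (MM (k + 1)) := by unfold MM; fun_prop
  exact (h2.comp h1).div (GG_cont.comp h1) fun r => (GG_pos _).ne'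

lemma lam_pos (k : ℕ) (r : ℝ) : 0 < lam k r := by
  have h := cl_ge k r
  have hk : (0 : ℝ) ≤ k := by positivity
  exact div_pos (MM_pos (by linarith)) (GG_pos _)

lemma MM_top' (k : ℕ) : MM (k + 1) (k + 2) = wk (k + 1) := by
  have := MM_top (k + 1)
  push_cast at this
  rw [show (k : ℝ) + 2 = k + 1 + 1 by ring]
  exact this

lemma GG_top' (k : ℕ) : GG (k + 2) = wk (k + 1) := by
  have := GG_nat (k + 1)
  push_cast at this
  rw [show (k : ℝ) + 2 = k + 1 + 1 by ring]
  exact this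

lemma lam_le (k : ℕ) (r : ℝ) : lam k r ≤ 1 := by
  unfold lam
  rw [div_le_one (GG_pos _)]
  have h := cl_le k r
  calc MM (k + 1) (cl k r) ≤ wk (k + 1) := MM_le (by push_cast; linarith)
    _ = GG (k + 2) := (GG_top' k).symm
    _ ≤ GG (cl k r) := GG_anti h

lemma lam_large {k : ℕ} {r : ℝ} (h : k + 2 ≤ r) : lam k r = 1 := by
  unfold lam cl
  rw [min_eq_right h, max_eq_right (by linarith), MM_top', GG_top', div_self (wk_pos _).ne']

lemma lam_mul {k : ℕ} {r : ℝ} (h : r ≤ k + 2) : lam k r * AA k r = MM (k + 1) r := by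
  unfold lam AA cl
  have hk : (0 : ℝ) ≤ k := by positivity
  rw [min_eq_left h]
  by_cases h1 : r ≤ k + 1
  · rw [if_pos h1, max_eq_left h1, GG_nat]
    unfold MM
    rw [wk_succ]
    push_cast
    have := wk_pos k
    field_simp
    ring
  · push Not at h1
    rw [if_neg (by linarith), max_eq_right h1.le, div_mul_cancel₀ _ (GG_pos _).ne']

lemma AA_le {k : ℕ} (r : ℝ) : AA k r ≤ wk k := by
  unfold AA
  split_ifs with h
  · exact MM_le h
  · push Not at h
    rw [← GG_nat]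
    exact GG_anti h.le

lemma surj_of_near {f : ℝ → ℝ} (hf : Continuous f) (C : ℝ) (h : ∀ x, |f x - x| ≤ C) :
    Function.Surjective f := by
  refine hf.surjective ?_ ?_
  · refine Filter.tendsto_atTop_mono (f := fun x => x - C) (fun x => ?_)
      (Filter.tendsto_atTop_add_const_right _ _ Filter.tendsto_id)
    have := (abs_le.1 (h x)).1
    linarith
  · refine Filter.tendsto_atBot_mono (f := fun x => x + C) (g := f) (fun x => ?_)
      (Filter.tendsto_atBot_add_const_right _ _ Filter.tendsto_id)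
    have := (abs_le.1 (h x)).2
    linarith

/-- the angular map -/
noncomputable def ang (k : ℕ) (x : ℝ × ℝ) : ℝ :=
  lam k x.1 * x.2 + (1 - lam k x.1) * gamk k x.2

lemma ang_cont (k : ℕ) : Continuous (ang k) := by
  unfold ang
  have h1 := lam_cont k
  have h2 := gamk_cont k
  fun_prop

lemma ang_mono (k : ℕ) (r : ℝ) : StrictMono fun t => ang k (r, t) := by
  intro s t h
  unfold ang
  simp only
  have h1 := lam_pos k r
  have h2 := lam_le k r
  have h3 := gamk_mono k h.le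
  nlinarith

lemma ang_surj (k : ℕ) (r : ℝ) : Function.Surjective fun t => ang k (r, t) := by
  refine surj_of_near ((ang_cont k).comp (by fun_prop)) 1 fun t => ?_
  have h1 := lam_pos k r
  have h2 := lam_le k r
  have h3 : |gamk k t - t| ≤ 1 := by
    unfold gamk
    have h4 := gam_near_id (2 ^ k * t)
    have h5 : (1 : ℝ) ≤ 2 ^ k := one_le_pow₀ (by norm_num)
    have h6 : gam (2 ^ k * t) / 2 ^ k - t = (gam (2 ^ k * t) - 2 ^ k * t) / 2 ^ k := by
      field_simp
    rw [h6, abs_div, abs_of_pos (by positivity : (0 : ℝ) < 2 ^ k), div_le_one (by positivity)]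
    linarith
  unfold ang
  simp only
  have h4 : lam k r * t + (1 - lam k r) * gamk k t - t = (1 - lam k r) * (gamk k t - t) := by ring
  rw [h4, abs_mul, abs_of_nonneg (by linarith)]
  nlinarith [abs_nonneg (gamk k t - t)]

/-- the radial map, the angle is the first coordinate -/
noncomputable def rad (k : ℕ) (x : ℝ × ℝ) : ℝ := (1 - vvk k x.1) * x.2 + vvk k x.1 * mu k x.2

lemma rad_cont (k : ℕ) : Continuous (rad k) := by
  unfold rad
  have h1 := mu_cont k
  have h2 := vvk_cont k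
  fun_prop

lemma rad_mono (k : ℕ) (t : ℝ) : StrictMono fun r => rad k (t, r) := by
  intro r s h
  unfold rad
  simp only
  have h1 : 0 ≤ vvk k t := vv_nonneg _
  have h2 : vvk k t ≤ 1 := vv_le _
  have h3 := mu_strict k h
  rcases h1.eq_or_lt with h4 | h4
  · rw [← h4]
    linarith
  · nlinarith

lemma rad_surj (k : ℕ) (t : ℝ) : Function.Surjective fun r => rad k (t, r) := by
  refine surj_of_near ((rad_cont k).comp (by fun_prop)) (k + 2) fun r => ?_
  have h1 : 0 ≤ vvk k t := vv_nonneg _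
  have h2 : vvk k t ≤ 1 := vv_le _
  have h3 := mu_near k r
  unfold rad
  simp only
  have h4 : (1 - vvk k t) * r + vvk k t * mu k r - r = vvk k t * (mu k r - r) := by ring
  rw [h4, abs_mul, abs_of_nonneg h1]
  nlinarith [abs_nonneg (mu k r - r)]

/-- the homeomorphism `Φ k` -/
noncomputable def Phi (k : ℕ) : ℝ × ℝ ≃ₜ ℝ × ℝ :=
  ((fib (ang k) (ang_cont k) (ang_mono k) (ang_surj k)).trans (Homeomorph.prodComm ℝ ℝ)).trans
    ((fib (rad k) (rad_cont k) (rad_mono k) (rad_surj k)).trans (Homeomorph.prodComm ℝ ℝ))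

lemma Phi_apply (k : ℕ) (r t : ℝ) : Phi k (r, t) = (rad k (ang k (r, t), r), ang k (r, t)) := rfl

lemma rad_fix {k : ℕ} {t r : ℝ} (h : r ≤ 0 ∨ k + 2 ≤ r ∨ vvk k t = 0) : rad k (t, r) = r := by
  unfold rad
  simp only
  rcases h with h | h | h
  · rw [mu_neg h]
    ring
  · rw [mu_large h]
    ring
  · rw [h]
    ring

lemma rad_one {k : ℕ} {t r : ℝ} (h : vvk k t = 1) : rad k (t, r) = mu k r := by
  unfold rad
  simp only
  rw [h]
  ring

lemma Phi_large {k : ℕ} {r t : ℝ} (h : k + 2 ≤ r) : Phi k (r, t) = (r, t) := by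
  rw [Phi_apply, rad_fix (Or.inr (Or.inl h))]
  unfold ang
  simp only
  rw [lam_large h]
  simp

lemma ang_add (k : ℕ) (r t : ℝ) (m : ℤ) : ang k (r, t + m / 2 ^ k) = ang k (r, t) + m / 2 ^ k := by
  unfold ang
  simp only
  rw [gamk_add]
  ring

lemma rad_add (k : ℕ) (r t : ℝ) (m : ℤ) : rad k (t + m / 2 ^ k, r) = rad k (t, r) := by
  unfold rad
  simp only
  rw [vvk_add]

lemma Phi_add (k : ℕ) (x : ℝ × ℝ) (m : ℤ) :
    Phi k (x + (0, (m : ℝ) / 2 ^ k)) = Phi k x + (0, (m : ℝ) / 2 ^ k) := by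
  obtain ⟨r, t⟩ := x
  have h1 : ((r, t) : ℝ × ℝ) + (0, (m : ℝ) / 2 ^ k) = (r, t + m / 2 ^ k) := by simp
  rw [h1, Phi_apply, Phi_apply, ang_add, rad_add]
  simp

lemma rad_le_iff {k : ℕ} {t r : ℝ} {c : ℝ} (hc : rad k (t, c) = c) :
    rad k (t, r) ≤ c ↔ r ≤ c := by
  have h1 : rad k (t, r) ≤ rad k (t, c) ↔ r ≤ c := (rad_mono k t).le_iff_le
  rwa [hc] at h1

lemma Phi_mem (k : ℕ) : Phi k ∈ EE := by
  refine ⟨fun x => ?_, fun x => ?_⟩
  · have h1 := Phi_add k x (2 ^ k)
    have h2 : (((2 ^ k : ℤ) : ℝ)) / 2 ^ k = 1 := by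
      push_cast
      field_simp
    rw [h2] at h1
    exact h1
  · obtain ⟨r, t⟩ := x
    rw [Phi_apply]
    exact rad_le_iff (rad_fix (Or.inl le_rfl))

/-- the angular map near the old notches -/
lemma ang_old {k : ℕ} {r t : ℝ} (hr : r ≤ k + 2) (m : ℤ) :
    |t - m / 2 ^ k| < AA k r ↔ |ang k (r, t) - m / 2 ^ k| < MM (k + 1) r := by
  have hk : (0 : ℝ) ≤ k := by positivity
  by_cases h0 : r ≤ 2 / 3
  · have h1 : AA k r ≤ 0 := by
      unfold AA
      rw [if_pos (by linarith)]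
      exact MM_nonpos h0
    have h2 : MM (k + 1) r ≤ 0 := MM_nonpos h0
    have h3 := abs_nonneg (t - m / 2 ^ k)
    have h4 := abs_nonneg (ang k (r, t) - m / 2 ^ k)
    constructor <;> intro h5 <;> linarith
  · push Not at h0
    have hA : 0 < AA k r := by
      unfold AA
      split_ifs
      · exact MM_pos h0
      · exact GG_pos _
    have hA2 := AA_le (k := k) r
    have hl := lam_mul hr
    have hlp := lam_pos k r
    have key : ∀ x : ℝ, |x - m / 2 ^ k| ≤ AA k r →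
        ang k (r, x) - m / 2 ^ k = lam k r * (x - m / 2 ^ k) := by
      intro x hx
      unfold ang
      simp only
      rw [gamk_near m (hx.trans hA2)]
      ring
    constructor
    · intro h
      rw [key t h.le, abs_mul, abs_of_pos hlp, ← hl]
      exact mul_lt_mul_of_pos_left h hlp
    · intro h
      by_contra hcon
      push Not at hcon
      rcases le_abs.1 hcon with h1 | h1
      · have h2 : m / 2 ^ k + AA k r ≤ t := by linarith
        have h3 : ang k (r, _) ≤ ang k (r, _) := (ang_mono k r).monotone h2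
        have h4 := key (m / 2 ^ k + AA k r) (by
          rw [add_sub_cancel_left, abs_of_pos hA])
        rw [add_sub_cancel_left, hl] at h4
        have h5 := (abs_lt.1 h).2
        linarith
      · have h2 : t ≤ m / 2 ^ k - AA k r := by linarith
        have h3 : ang k (r, _) ≤ ang k (r, _) := (ang_mono k r).monotone h2
        have h4 := key (m / 2 ^ k - AA k r) (by
          rw [sub_sub_cancel_left, abs_neg, abs_of_pos hA])
        rw [sub_sub_cancel_left, mul_neg, hl] at h4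
        have h5 := (abs_lt.1 h).1
        linarith

/-- the angular map near the new notches -/
lemma ang_new {k : ℕ} {r t : ℝ} {m : ℤ} (hm : Odd m) :
    (|t - m / 2 ^ (k + 1)| ≤ wk (k + 1) → ang k (r, t) = t) ∧
    (|ang k (r, t) - m / 2 ^ (k + 1)| ≤ wk (k + 1) → |t - m / 2 ^ (k + 1)| ≤ wk (k + 1)) := by
  have key : ∀ x : ℝ, |x - m / 2 ^ (k + 1)| ≤ wk (k + 1) → ang k (r, x) = x := by
    intro x hx
    unfold ang
    simp only
    rw [gamk_mid hm hx]
    ring
  have hw := wk_pos (k + 1)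
  refine ⟨key t, fun h => ?_⟩
  obtain ⟨h1, h2⟩ := abs_le.1 h
  rw [abs_le]
  have e1 := key (m / 2 ^ (k + 1) + wk (k + 1)) (by rw [add_sub_cancel_left, abs_of_pos hw])
  have e2 := key (m / 2 ^ (k + 1) - wk (k + 1)) (by
    rw [sub_sub_cancel_left, abs_neg, abs_of_pos hw])
  constructor
  · have : ang k (r, m / 2 ^ (k + 1) - wk (k + 1)) ≤ ang k (r, t) := by linarith
    have := (ang_mono k r).le_iff_le.1 this
    linarith
  · have : ang k (r, t) ≤ ang k (r, m / 2 ^ (k + 1) + wk (k + 1)) := by linarith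
    have := (ang_mono k r).le_iff_le.1 this
    linarith

lemma ang_new_lt {k : ℕ} {r t : ℝ} {m : ℤ} (hm : Odd m) {c : ℝ} (hc : c ≤ wk (k + 1)) :
    |t - m / 2 ^ (k + 1)| < c ↔ |ang k (r, t) - m / 2 ^ (k + 1)| < c := by
  obtain ⟨h1, h2⟩ := ang_new (k := k) (r := r) (t := t) hm
  constructor
  · intro h
    rwa [h1 (h.le.trans hc)]
  · intro h
    rwa [h1 (h2 (h.le.trans hc))] at h

lemma split_levels {k : ℕ} {t A : ℝ} : (∀ m : ℤ, A ≤ |t - m / 2 ^ (k + 1)|) ↔
    (∀ m : ℤ, A ≤ |t - m / 2 ^ k|) ∧ ∀ m : ℤ, Odd m → A ≤ |t - m / 2 ^ (k + 1)| := by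
  have h2 : ∀ i : ℤ, ((2 * i : ℤ) : ℝ) / 2 ^ (k + 1) = i / 2 ^ k := by
    intro i
    push_cast
    rw [pow_succ]
    field_simp
  constructor
  · intro h
    refine ⟨fun m => ?_, fun m _ => h m⟩
    have := h (2 * m)
    rwa [h2] at this
  · rintro ⟨h1, h3⟩ m
    rcases Int.even_or_odd' m with ⟨i, rfl | rfl⟩
    · rw [h2]
      exact h1 i
    · exact h3 _ ⟨i, rfl⟩

lemma mem_Sk_small {k : ℕ} {r t : ℝ} (hr : r ≤ k + 1) :
    (r, t) ∈ Sk k ↔ ∀ m : ℤ, MM k r ≤ |t - m / 2 ^ k| := by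
  constructor
  · intro h m
    have := h.1 m
    unfold AA at this
    rwa [if_pos hr] at this
  · intro h
    refine ⟨fun m => ?_, fun l hl m _ => ?_⟩
    · unfold AA
      rw [if_pos hr]
      exact h m
    · have h1 : ((k + 1 : ℕ) : ℝ) ≤ l := by exact_mod_cast hl
      push_cast at h1
      exact (NN_nonpos (by simp only; linarith)).trans (abs_nonneg _)

lemma Phi_Sk (k : ℕ) (x : ℝ × ℝ) : Phi k x ∈ Sk (k + 1) ↔ x ∈ Sk k := by
  obtain ⟨r, t⟩ := x
  by_cases hr : k + 2 ≤ r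
  · rw [Phi_large hr]
    have e1 : AA k r = GG r := by
      unfold AA
      rw [if_neg (by linarith)]
    have e2 : AA (k + 1) r = GG r := by
      unfold AA
      split_ifs with h
      · have h3 : r = k + 2 := by push_cast at h; linarith
        rw [h3, MM_top', GG_top']
      · rfl
    have e3 : NN (k + 1) r = GG r := by
      unfold NN
      split_ifs with h
      · have h3 : r = k + 2 := by push_cast at h; linarith
        rw [h3, GG_top']
        push_cast
        ring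
      · rfl
    unfold Sk
    simp only [mem_ofPred_eq]
    rw [e1, e2, split_levels]
    constructor
    · rintro ⟨⟨h1, h2⟩, h3⟩
      refine ⟨h1, fun l hl m hm => ?_⟩
      rcases Nat.lt_or_ge (k + 1) l with h4 | h4
      · exact h3 l h4 m hm
      · have : l = k + 1 := by omega
        subst this
        rw [e3]
        exact h2 m hm
    · rintro ⟨h1, h3⟩
      refine ⟨⟨h1, fun m hm => ?_⟩, fun l hl m hm => h3 l (by omega) m hm⟩
      have := h3 (k + 1) (by omega) m hm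
      rwa [e3] at this
  · push Not at hr
    rw [Phi_apply]
    have hr' : rad k (ang k (r, t), r) ≤ k + 2 :=
      (rad_le_iff (rad_fix (Or.inr (Or.inl le_rfl)))).2 hr.le
    have hr1 : rad k (ang k (r, t), r) ≤ ((k + 1 : ℕ) : ℝ) + 1 := by
      push_cast
      linarith
    rw [mem_Sk_small hr1, split_levels]
    have hL : (r, t) ∈ Sk k ↔ (∀ m : ℤ, AA k r ≤ |t - m / 2 ^ k|) ∧
        ∀ m : ℤ, Odd m → NN (k + 1) r ≤ |t - m / 2 ^ (k + 1)| := by
      constructor
      · intro h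
        exact ⟨h.1, fun m hm => h.2 (k + 1) (by omega) m hm⟩
      · rintro ⟨h1, h2⟩
        refine ⟨h1, fun l hl m hm => ?_⟩
        rcases Nat.lt_or_ge (k + 1) l with h4 | h4
        · have h5 : ((k + 2 : ℕ) : ℝ) ≤ l := by exact_mod_cast h4
          push_cast at h5
          exact (NN_nonpos (by simp only; linarith)).trans (abs_nonneg _)
        · have : l = k + 1 := by omega
          subst this
          exact h2 m hm
    rw [hL]
    have hw := wk_pos (k + 1)
    have hM1 : MM (k + 1) r ≤ wk (k + 1) := MM_le (by push_cast; linarith)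
    have hM2 : MM (k + 1) (rad k (ang k (r, t), r)) ≤ wk (k + 1) := MM_le hr1
    have hN : NN (k + 1) r ≤ wk (k + 1) := NN_le (by push_cast; linarith)
    have hold : ∀ m : ℤ, MM (k + 1) (rad k (ang k (r, t), r)) ≤ |ang k (r, t) - m / 2 ^ k| ↔
        AA k r ≤ |t - m / 2 ^ k| := by
      intro m
      rw [← not_lt, ← not_lt, ang_old hr.le m]
      refine not_congr ?_
      by_cases h : |ang k (r, t) - m / 2 ^ k| ≤ wk (k + 1)
      · rw [rad_fix (Or.inr (Or.inr (vvk_near m h)))]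
      · push Not at h
        constructor <;> intro h6 <;> linarith
    have hnew : ∀ m : ℤ, Odd m → (MM (k + 1) (rad k (ang k (r, t), r))
        ≤ |ang k (r, t) - m / 2 ^ (k + 1)| ↔ NN (k + 1) r ≤ |t - m / 2 ^ (k + 1)|) := by
      intro m hm
      rw [← not_lt, ← not_lt, ang_new_lt (k := k) (r := r) hm hN]
      refine not_congr ?_
      by_cases h : |ang k (r, t) - m / 2 ^ (k + 1)| ≤ wk (k + 1)
      · rw [rad_one (vvk_mid hm h)]
        exact (mu_notch hr.le (abs_nonneg _)).symm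
      · push Not at h
        constructor <;> intro h6 <;> linarith
    exact and_congr (forall_congr' hold) (forall_congr' fun m => forall_congr' fun hm => hnew m hm)

lemma Sk_add_aux {k : ℕ} {x : ℝ × ℝ} (i : ℤ) (h : x ∈ Sk k) : x + (0, (i : ℝ) / 2 ^ k) ∈ Sk k := by
  obtain ⟨r, t⟩ := x
  have e : ((r, t) : ℝ × ℝ) + (0, (i : ℝ) / 2 ^ k) = (r, t + i / 2 ^ k) := by simp
  rw [e]
  refine ⟨fun m => ?_, fun l hl m hm => ?_⟩
  · have h1 := h.1 (m - i)
    have h2 : t - ((m - i : ℤ) : ℝ) / 2 ^ k = t + i / 2 ^ k - m / 2 ^ k := by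
      push_cast
      ring
    simp only at h1
    rw [h2] at h1
    exact h1
  · obtain ⟨d, rfl⟩ := Nat.exists_eq_add_of_lt hl
    have hodd : Odd (m - i * 2 ^ (d + 1)) := by
      refine hm.sub_even ?_
      rw [pow_succ]
      exact ⟨i * 2 ^ d, by ring⟩
    have h1 := h.2 (k + d + 1) hl _ hodd
    have h2 : t - ((m - i * 2 ^ (d + 1) : ℤ) : ℝ) / 2 ^ (k + d + 1)
        = t + i / 2 ^ k - m / 2 ^ (k + d + 1) := by
      push_cast
      rw [show k + d + 1 = k + (d + 1) by ring, pow_add]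
      field_simp
      ring
    simp only at h1
    rw [h2] at h1
    exact h1

lemma Sk_add {k : ℕ} {x : ℝ × ℝ} (i : ℤ) : x + (0, (i : ℝ) / 2 ^ k) ∈ Sk k ↔ x ∈ Sk k := by
  refine ⟨fun h => ?_, Sk_add_aux i⟩
  have h1 := Sk_add_aux (-i) h
  have h2 : x + (0, (i : ℝ) / 2 ^ k) + (0, ((-i : ℤ) : ℝ) / 2 ^ k) = x := by
    rw [add_assoc]
    have : ((0, (i : ℝ) / 2 ^ k) : ℝ × ℝ) + (0, ((-i : ℤ) : ℝ) / 2 ^ k) = 0 := by
      ext
      · simp
      · push_cast
        simp
        ring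
    rw [this, add_zero]
  rwa [h2] at h1

/-- rotation by `1/2^k` -/
noncomputable def Tk (k : ℕ) : ℝ × ℝ ≃ₜ ℝ × ℝ := Homeomorph.addRight ((0, 1 / 2 ^ k) : ℝ × ℝ)

lemma Tk_apply (k : ℕ) (x : ℝ × ℝ) : Tk k x = x + (0, ((1 : ℤ) : ℝ) / 2 ^ k) := by
  rw [Int.cast_one]
  rfl

lemma Tk_mem (k : ℕ) : Tk k ∈ EE := by
  refine ⟨fun x => ?_, fun x => ?_⟩
  · rw [Tk_apply, Tk_apply, add_right_comm]
  · rw [Tk_apply]
    simp

lemma Tk_Sk (k : ℕ) (x : ℝ × ℝ) : Tk k x ∈ Sk k ↔ x ∈ Sk k := by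
  rw [Tk_apply]
  exact Sk_add 1

lemma Tk_sq (k : ℕ) : Tk (k + 1) * Tk (k + 1) = Tk k := by
  ext x
  · change ((Tk (k + 1)) ((Tk (k + 1)) x)).1 = (Tk k x).1
    rw [Tk_apply, Tk_apply, Tk_apply]
    simp
  · change ((Tk (k + 1)) ((Tk (k + 1)) x)).2 = (Tk k x).2
    rw [Tk_apply, Tk_apply, Tk_apply]
    simp only [Prod.snd_add]
    rw [pow_succ]
    push_cast
    field_simp
    ring

lemma Phi_Tk (k : ℕ) : Phi k * Tk k = Tk k * Phi k := by
  refine Homeomorph.ext fun x => ?_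
  change Phi k (Tk k x) = Tk k (Phi k x)
  rw [Tk_apply, Tk_apply, Phi_add]

/-- the homeomorphisms `h k` -/
noncomputable def HH : ℕ → (ℝ × ℝ ≃ₜ ℝ × ℝ)
  | 0 => 1
  | k + 1 => Phi k * HH k

lemma HH_mem (k : ℕ) : HH k ∈ EE := by
  induction k with
  | zero => exact EE.one_mem
  | succ k ih => exact EE.mul_mem (Phi_mem k) ih

lemma HH_Sk (k : ℕ) (x : ℝ × ℝ) : HH k x ∈ Sk k ↔ x ∈ Sk 0 := by
  induction k with
  | zero => exact Iff.rfl
  | succ k ih => exact (Phi_Sk k (HH k x)).trans ih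

lemma HH_large (k : ℕ) {x : ℝ × ℝ} (h : k + 1 ≤ x.1) : HH k x = x := by
  induction k with
  | zero => rfl
  | succ k ih =>
    push_cast at h
    change Phi k (HH k x) = x
    rw [ih (by linarith)]
    obtain ⟨r, t⟩ := x
    exact Phi_large (by simp only at h; linarith)

lemma HH_le (k : ℕ) {c : ℝ} (hc : k + 1 ≤ c) (x : ℝ × ℝ) : (HH k x).1 ≤ c ↔ x.1 ≤ c := by
  induction k with
  | zero => exact Iff.rfl
  | succ k ih =>
    push_cast at hc
    rw [← ih (by linarith)]
    change (Phi k (HH k x)).1 ≤ c ↔ _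
    generalize HH k x = y
    obtain ⟨r, t⟩ := y
    rw [Phi_apply]
    exact rad_le_iff (rad_fix (Or.inr (Or.inl (by linarith))))

/-- the homeomorphisms `r k` in polar coordinates -/
noncomputable def RR (k : ℕ) : ℝ × ℝ ≃ₜ ℝ × ℝ := (HH k)⁻¹ * Tk k * HH k

lemma RR_mem (k : ℕ) : RR k ∈ EE :=
  EE.mul_mem (EE.mul_mem (EE.inv_mem (HH_mem k)) (Tk_mem k)) (HH_mem k)

lemma HH_RR (k : ℕ) (x : ℝ × ℝ) : HH k (RR k x) = Tk k (HH k x) := by
  change HH k ((HH k).symm (Tk k (HH k x))) = _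
  rw [Homeomorph.apply_symm_apply]

lemma RR_sq (k : ℕ) : RR (k + 1) * RR (k + 1) = RR k := by
  have h : HH (k + 1) = Phi k * HH k := rfl
  unfold RR
  rw [h]
  have h2 := Phi_Tk k
  have h3 := Tk_sq k
  calc (Phi k * HH k)⁻¹ * Tk (k + 1) * (Phi k * HH k) *
        ((Phi k * HH k)⁻¹ * Tk (k + 1) * (Phi k * HH k))
      = (Phi k * HH k)⁻¹ * (Tk (k + 1) * Tk (k + 1)) * (Phi k * HH k) := by group
    _ = (HH k)⁻¹ * ((Phi k)⁻¹ * (Tk k * Phi k)) * HH k := by
        rw [h3]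
        group
    _ = (HH k)⁻¹ * Tk k * HH k := by
        rw [← h2]
        group

lemma RR_Sk (k : ℕ) (x : ℝ × ℝ) : RR k x ∈ Sk 0 ↔ x ∈ Sk 0 := by
  rw [← HH_Sk k, HH_RR, Tk_Sk, HH_Sk]

lemma RR_large (k : ℕ) {x : ℝ × ℝ} (h : k + 1 ≤ x.1) : RR k x = x + (0, 1 / 2 ^ k) := by
  apply (HH k).injective
  rw [HH_RR, HH_large k h, HH_large k (x := x + (0, 1 / 2 ^ k)) (by simpa using h)]
  rfl

lemma RR_le (k : ℕ) (x : ℝ × ℝ) : (RR k x).1 ≤ k + 1 ↔ x.1 ≤ k + 1 := by
  rw [← HH_le k le_rfl, HH_RR, Tk_apply]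
  simp only [Prod.fst_add, add_zero]
  exact HH_le k le_rfl x

lemma RR_zero (x : ℝ × ℝ) : RR 0 x = x + (0, 1) := by
  have h : RR 0 = Tk 0 := by
    unfold RR
    change (1 : ℝ × ℝ ≃ₜ ℝ × ℝ)⁻¹ * Tk 0 * 1 = Tk 0
    group
  rw [h, Tk_apply]
  simp

/-- the punctures -/
lemma Phi_Vk (k : ℕ) : Phi k '' Vk k = Vk (k + 1) := by
  have hw := wk_pos (k + 1)
  have hw2 := wk_pos k
  have hA : ∀ m : ℤ, Phi k (1 / 3, (m : ℝ) / 2 ^ k) = (1 / 3, (m : ℝ) / 2 ^ k) := by
    intro m
    have h1 : ang k (1 / 3, (m : ℝ) / 2 ^ k) = (m : ℝ) / 2 ^ k := by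
      unfold ang
      simp only
      rw [gamk_near m (by simp [hw2.le])]
      ring
    rw [Phi_apply, h1, rad_fix (Or.inr (Or.inr (vvk_near m (by simp [hw.le]))))]
  have hB : ∀ m : ℤ, Odd m → Phi k (((k + 1 : ℕ) : ℝ) + 1 / 3, (m : ℝ) / 2 ^ (k + 1))
      = (1 / 3, (m : ℝ) / 2 ^ (k + 1)) := by
    intro m hm
    have h1 : ang k (((k + 1 : ℕ) : ℝ) + 1 / 3, (m : ℝ) / 2 ^ (k + 1)) = (m : ℝ) / 2 ^ (k + 1) := by
      unfold ang
      simp only
      rw [gamk_mid hm (by simp [hw.le])]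
      ring
    rw [Phi_apply, h1, rad_one (vvk_mid hm (by simp [hw.le])), mu_mark]
  have hC : ∀ l : ℕ, k + 1 < l → ∀ t : ℝ, Phi k ((l : ℝ) + 1 / 3, t) = ((l : ℝ) + 1 / 3, t) := by
    intro l hl t
    have : ((k + 2 : ℕ) : ℝ) ≤ l := by exact_mod_cast hl
    push_cast at this
    exact Phi_large (by linarith)
  have h2 : ∀ i : ℤ, ((2 * i : ℤ) : ℝ) / 2 ^ (k + 1) = i / 2 ^ k := by
    intro i
    push_cast
    rw [pow_succ]
    field_simp
  ext y
  constructor
  · rintro ⟨x, ⟨m, rfl⟩ | ⟨l, hl, m, hm, rfl⟩, rfl⟩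
    · left
      exact ⟨2 * m, by rw [hA, h2]⟩
    · rcases Nat.lt_or_ge (k + 1) l with h4 | h4
      · right
        exact ⟨l, h4, m, hm, hC l h4 _⟩
      · have : l = k + 1 := by omega
        subst this
        left
        exact ⟨m, hB m hm⟩
  · rintro (⟨m, rfl⟩ | ⟨l, hl, m, hm, rfl⟩)
    · rcases Int.even_or_odd' m with ⟨i, rfl | rfl⟩
      · refine ⟨_, Or.inl ⟨i, rfl⟩, ?_⟩
        rw [hA, h2]
      · refine ⟨_, Or.inr ⟨k + 1, by omega, 2 * i + 1, ⟨i, rfl⟩, rfl⟩, ?_⟩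
        exact hB _ ⟨i, rfl⟩
    · exact ⟨_, Or.inr ⟨l, by omega, m, hm, rfl⟩, hC l hl _⟩

lemma HH_Vk (k : ℕ) : HH k '' Vk 0 = Vk k := by
  induction k with
  | zero => exact image_id _
  | succ k ih =>
    change (Phi k ∘ HH k) '' Vk 0 = _
    rw [image_comp, ih, Phi_Vk]

lemma Vk_add {k : ℕ} {x : ℝ × ℝ} (i : ℤ) (h : x ∈ Vk k) : x + (0, (i : ℝ) / 2 ^ k) ∈ Vk k := by
  rcases h with ⟨m, rfl⟩ | ⟨l, hl, m, hm, rfl⟩
  · left
    refine ⟨m + i, ?_⟩
    ext
    · simp
    · simp only [Prod.snd_add]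
      push_cast
      ring
  · right
    obtain ⟨d, rfl⟩ := Nat.exists_eq_add_of_lt hl
    refine ⟨_, hl, m + i * 2 ^ (d + 1), hm.add_even ?_, ?_⟩
    · rw [pow_succ]
      exact ⟨i * 2 ^ d, by ring⟩
    · ext
      · simp
      · simp only [Prod.snd_add]
        push_cast
        rw [show k + d + 1 = k + (d + 1) by ring, pow_add]
        field_simp

lemma RR_Vk (k : ℕ) {x : ℝ × ℝ} : RR k x ∈ Vk 0 ↔ x ∈ Vk 0 := by
  have h1 : ∀ y, HH k y ∈ Vk k ↔ y ∈ Vk 0 := by
    intro y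
    rw [← HH_Vk k]
    exact (HH k).injective.mem_set_image
  rw [← h1, HH_RR, Tk_apply, ← h1]
  refine ⟨fun h => ?_, Vk_add 1⟩
  have h3 := Vk_add (-1) h
  have h2 : HH k x + (0, ((1 : ℤ) : ℝ) / 2 ^ k) + (0, ((-1 : ℤ) : ℝ) / 2 ^ k) = HH k x := by
    rw [add_assoc]
    have : ((0, ((1 : ℤ) : ℝ) / 2 ^ k) : ℝ × ℝ) + (0, ((-1 : ℤ) : ℝ) / 2 ^ k) = 0 := by
      ext
      · simp
      · push_cast
        simp
        ring
    rw [this, add_zero]
  rwa [h2] at h3

/-- `r 1` moves the puncture `(1/3, 0)` -/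
lemma RR_one : RR 1 ((1 : ℝ) / 3, 0) = ((4 : ℝ) / 3, 1 / 2) := by
  apply (HH 1).injective
  rw [HH_RR]
  have hw := wk_pos 1
  have hw2 := wk_pos 0
  have h1 : HH 1 = Phi 0 := by
    change Phi 0 * 1 = Phi 0
    group
  rw [h1]
  have h2 : Phi 0 ((1 : ℝ) / 3, 0) = (1 / 3, 0) := by
    have e1 : ang 0 (1 / 3, 0) = 0 := by
      unfold ang
      simp only
      rw [gamk_near (k := 0) (t := 0) 0 (by simp [hw2.le])]
      simp
    rw [Phi_apply, e1, rad_fix (Or.inr (Or.inr (vvk_near (k := 0) (t := 0) 0 (by simp [hw.le]))))]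
  have h3 : Phi 0 ((4 : ℝ) / 3, 1 / 2) = (1 / 3, 1 / 2) := by
    have e1 : ang 0 (4 / 3, 1 / 2) = 1 / 2 := by
      unfold ang
      simp only
      rw [gamk_mid (k := 0) (t := 1 / 2) (m := 1) (by decide) (by simp [hw.le])]
      ring
    have e2 := mu_mark 0
    norm_num at e2
    rw [Phi_apply, e1, rad_one (vvk_mid (k := 0) (t := 1 / 2) (m := 1) (by decide)
      (by simp [hw.le])), e2]
  rw [h2, h3, Tk_apply]
  ext
  · simp
  · simp

end Pool.Agent.Q238.AR
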