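import Mathlib

/-! The binary tree on `ℕ`, `n` is adjacent to `n / 2`. -/

set_option autoImplicit false

namespace Pool.Agent.Q238.AR

/-- the tree `A_{2,1}`: `0` has degree one, all other vertices have degree three -/
def TT : SimpleGraph ℕ where
  Adj a b := a ≠ b ∧ (a = b / 2 ∨ b = a / 2)
  symm := ⟨fun _ _ h => ⟨h.1.symm, h.2.symm⟩⟩
  loopless := ⟨fun _ h => h.1 rfl⟩

lemma TT_adj {a b : ℕ} : TT.Adj a b ↔ a ≠ b ∧ (a = b / 2 ∨ b = a / 2) := Iff.rfl

lemma TT_half {n : ℕ} (h : n ≠ 0) : TT.Adj (n / 2) n := by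
  rw [TT_adj]
  exact ⟨by omega, Or.inl rfl⟩

lemma TT_reach (n : ℕ) : TT.Reachable 0 n := by
  induction n using Nat.strong_induction_on with
  | _ n ih =>
    by_cases h : n = 0
    · subst h
      exact SimpleGraph.Reachable.refl _
    · exact (ih (n / 2) (by omega)).trans (TT_half h).reachable

lemma TT_conn : TT.Connected := by
  rw [SimpleGraph.connected_iff]
  exact ⟨fun a b => (TT_reach a).symm.trans (TT_reach b), ⟨0⟩⟩

lemma TT_acyclic : TT.IsAcyclic := by
  intro v c hc
  obtain ⟨m, hm, hmax⟩ := c.support.toFinset.exists_max_image id ⟨v, by simp⟩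
  simp only [List.mem_toFinset, id] at hm hmax
  have hr := hc.rotate hm
  have hsupp : ∀ x, x ∈ (c.rotate m hm).support → x ≤ m := by
    intro x hx
    apply hmax
    exact (c.mem_support_rotate_iff m hm).1 hx
  have h1 : TT.Adj m (c.rotate m hm).snd := (c.rotate m hm).adj_snd hr.not_nil
  have h2 : TT.Adj (c.rotate m hm).penultimate m := (c.rotate m hm).adj_penultimate hr.not_nil
  have h3 : (c.rotate m hm).snd ≤ m := hsupp _ ((c.rotate m hm).getVert_mem_support 1)
  have h4 : (c.rotate m hm).penultimate ≤ m := hsupp _ ((c.rotate m hm).getVert_mem_support ((c.rotate m hm).length - 1))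
  apply hr.snd_ne_penultimate
  rw [TT_adj] at h1 h2
  omega

lemma TT_tree : TT.IsTree := ⟨TT_conn, TT_acyclic⟩

lemma TT_neighbors_zero : TT.neighborSet 0 = {1} := by
  ext x
  simp only [SimpleGraph.mem_neighborSet, TT_adj, Set.mem_singleton_iff]
  omega

lemma TT_neighbors {n : ℕ} (h : n ≠ 0) : TT.neighborSet n = {n / 2, 2 * n, 2 * n + 1} := by
  ext x
  simp only [SimpleGraph.mem_neighborSet, TT_adj, Set.mem_singleton_iff, Set.mem_insert_iff]
  omega

lemma TT_deg_zero : (TT.neighborSet 0).ncard = 1 := by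
  rw [TT_neighbors_zero]
  simp

lemma TT_deg {n : ℕ} (h : n ≠ 0) : (TT.neighborSet n).ncard = 3 := by
  rw [TT_neighbors h]
  have h2 : ({n / 2, 2 * n, 2 * n + 1} : Set ℕ) = (({n / 2, 2 * n, 2 * n + 1} : Finset ℕ) : Set ℕ) := by
    simp
  rw [h2, Set.ncard_coe_finset]
  rw [Finset.card_insert_of_notMem, Finset.card_insert_of_notMem, Finset.card_singleton]
  · simp
  · simp only [Finset.mem_insert, Finset.mem_singleton]
    omega

end Pool.Agent.Q238.AR
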