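import Pool.Agent.Q238.AR.Maps
import Pool.Agent.Q238.AR.Defs
import Pool.Agent.Q238.AR.Tree

/-!
# The surface and its polygons
-/

set_option autoImplicit false

namespace Pool.Agent.Q238.AR

open Set Topology

lemma pp_norm_pos {x : ℝ × ℝ} (h : 0 ≤ x.1) : ‖pp x‖ = x.1 := by
  rw [pp_norm, max_eq_left h]

lemma NN_eq {l : ℕ} {r : ℝ} (h : l + 1 ≤ r) : NN l r = GG r := by
  unfold NN
  split_ifs with h1
  · have : r = l + 1 := le_antisymm h1 h
    rw [this, GG_nat]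
    ring
  · rfl

lemma AA_eq {r : ℝ} (h : 1 ≤ r) : AA 0 r = GG r := by
  unfold AA
  split_ifs with h1
  · have h2 : r = ((0 : ℕ) : ℝ) + 1 := by push_cast at h1 ⊢; linarith
    rw [h2, MM_top, GG_nat]
  · rfl

lemma Sk_small {x : ℝ × ℝ} (h : x.1 ≤ 2 / 3) : x ∈ Sk 0 := by
  obtain ⟨r, t⟩ := x
  simp only at h
  rw [mem_Sk_small (by push_cast; linarith)]
  exact fun m => (MM_nonpos h).trans (abs_nonneg _)

lemma Sk_add_int {x : ℝ × ℝ} (i : ℤ) : x + (0, (i : ℝ)) ∈ Sk 0 ↔ x ∈ Sk 0 := by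
  have := Sk_add (k := 0) (x := x) i
  simpa using this

/-- the surface -/
def SS : Set ℂ := pp '' Sk 0

lemma eq_add_int {x y : ℝ × ℝ} (h1 : x.1 = y.1) {m : ℤ} (h2 : x.2 = y.2 + m) :
    x = y + (0, (m : ℝ)) := by
  ext
  · simp [h1]
  · simp [h2]

lemma pp_SS {x : ℝ × ℝ} : pp x ∈ SS ↔ x ∈ Sk 0 := by
  constructor
  · rintro ⟨y, hy, hxy⟩
    rw [pp_eq] at hxy
    rcases hxy with ⟨-, h⟩ | ⟨h1, m, h2⟩
    · exact Sk_small (by linarith)
    · rw [eq_add_int h1 h2, Sk_add_int] at hy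
      exact hy
  · exact fun h => ⟨x, h, rfl⟩

/-- the distance from the notches in the part `r ≥ L + 1` -/
lemma gap {L : ℕ} {x : ℝ × ℝ} (hx : x ∈ Sk 0) (h : L + 1 ≤ x.1) (i : ℤ) :
    GG x.1 ≤ |x.2 - i / 2 ^ L| := by
  induction L generalizing i with
  | zero =>
    have h1 := hx.1 i
    rwa [AA_eq (by simpa using h)] at h1
  | succ L ih =>
    push_cast at h
    revert i
    rw [split_levels]
    refine ⟨ih (by linarith), fun m hm => ?_⟩
    have := hx.2 (L + 1) (by omega) m hm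
    rwa [NN_eq (by push_cast; linarith)] at this

lemma mem_Sk_iff {L : ℕ} {x : ℝ × ℝ} (h1 : L + 1 ≤ x.1) (h2 : x.1 ≤ L + 2) :
    x ∈ Sk 0 ↔ (∀ i : ℤ, GG x.1 ≤ |x.2 - i / 2 ^ L|) ∧
      ∀ m : ℤ, Odd m → NN (L + 1) x.1 ≤ |x.2 - m / 2 ^ (L + 1)| := by
  constructor
  · intro h
    exact ⟨gap h h1, fun m hm => h.2 (L + 1) (by omega) m hm⟩
  · rintro ⟨h3, h4⟩
    have h5 : ∀ l : ℕ, l ≤ L → ∀ m : ℤ, GG x.1 ≤ |x.2 - m / 2 ^ l| := by
      intro l hl m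
      obtain ⟨d, rfl⟩ := Nat.exists_eq_add_of_le hl
      have := h3 (m * 2 ^ d)
      have e : ((m * 2 ^ d : ℤ) : ℝ) / 2 ^ (l + d) = m / 2 ^ l := by
        push_cast
        rw [pow_add]
        field_simp
      rwa [e] at this
    refine ⟨fun m => ?_, fun l hl m hm => ?_⟩
    · have hL : (0 : ℝ) ≤ L := by positivity
      rw [AA_eq (by linarith)]
      exact h5 0 (Nat.zero_le _) m
    · rcases Nat.lt_trichotomy l (L + 1) with h6 | h6 | h6
      · have h7 : (l : ℝ) ≤ L := by exact_mod_cast Nat.lt_succ_iff.1 h6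
        rw [NN_eq (by linarith)]
        exact h5 l (Nat.lt_succ_iff.1 h6) m
      · subst h6
        exact h4 m hm
      · have h7 : ((L + 2 : ℕ) : ℝ) ≤ l := by exact_mod_cast h6
        push_cast at h7
        exact (NN_nonpos (by linarith)).trans (abs_nonneg _)

/-- the root polygon -/
def Q0 : Set ℂ := pp '' {x | x ∈ Sk 0 ∧ x.1 ≤ 1}

/-- the polygons of level `L` -/
def QQ (L j : ℕ) : Set ℂ := pp '' {x | x ∈ Sk 0 ∧ L + 1 ≤ x.1 ∧ x.1 ≤ L + 2 ∧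
  (j : ℝ) / 2 ^ L ≤ x.2 ∧ x.2 ≤ (j + 1) / 2 ^ L}

/-- the polygon of the vertex `n` -/
def PP (n : ℕ) : Set ℂ := if n = 0 then Q0 else QQ (Nat.log 2 n) (n - 2 ^ Nat.log 2 n)

lemma log_add {L j : ℕ} (hj : j < 2 ^ L) : Nat.log 2 (2 ^ L + j) = L := by
  rw [Nat.log_eq_iff (Or.inr ⟨by norm_num, by positivity⟩), pow_succ]
  omega

lemma PP_zero : PP 0 = Q0 := if_pos rfl

lemma PP_eq {L j : ℕ} (hj : j < 2 ^ L) : PP (2 ^ L + j) = QQ L j := by
  unfold PP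
  have : 0 < 2 ^ L := by positivity
  rw [if_neg (by omega), log_add hj, Nat.add_sub_cancel_left]

lemma cases_vertex (n : ℕ) : n = 0 ∨ ∃ L j, j < 2 ^ L ∧ n = 2 ^ L + j := by
  by_cases h : n = 0
  · exact Or.inl h
  · right
    refine ⟨Nat.log 2 n, n - 2 ^ Nat.log 2 n, ?_, ?_⟩
    · have := Nat.lt_pow_succ_log_self (by norm_num : 1 < 2) n
      rw [pow_succ] at this
      omega
    · have := Nat.pow_log_le_self 2 h
      omega

lemma mem_Q0 {x : ℝ × ℝ} : pp x ∈ Q0 ↔ x ∈ Sk 0 ∧ x.1 ≤ 1 := by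
  constructor
  · rintro ⟨y, ⟨hy, hy2⟩, hxy⟩
    have h1 : pp x ∈ SS := ⟨y, hy, hxy⟩
    refine ⟨pp_SS.1 h1, ?_⟩
    have h2 := pp_norm x
    have h3 := pp_norm y
    rw [hxy] at h3
    have h4 : max y.1 0 ≤ 1 := max_le hy2 (by norm_num)
    calc x.1 ≤ max x.1 0 := le_max_left _ _
      _ ≤ 1 := by rw [← h2, h3]; exact h4
  · exact fun h => ⟨x, h, rfl⟩

lemma mem_QQ {L j : ℕ} {x : ℝ × ℝ} : pp x ∈ QQ L j ↔ x ∈ Sk 0 ∧ L + 1 ≤ x.1 ∧ x.1 ≤ L + 2 ∧
    ∃ m : ℤ, (j : ℝ) / 2 ^ L ≤ x.2 + m ∧ x.2 + m ≤ (j + 1) / 2 ^ L := by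
  have hL : (0 : ℝ) ≤ L := by positivity
  constructor
  · rintro ⟨y, ⟨hy, hy1, hy2, hy3, hy4⟩, hxy⟩
    have h1 : pp x ∈ SS := ⟨y, hy, hxy⟩
    refine ⟨pp_SS.1 h1, ?_⟩
    rw [pp_eq] at hxy
    rcases hxy with ⟨h2, -⟩ | ⟨h2, m, h3⟩
    · linarith
    · rw [← h2]
      refine ⟨hy1, hy2, m, ?_, ?_⟩ <;> rw [← h3] <;> assumption
  · rintro ⟨h1, h2, h3, m, h4, h5⟩
    refine ⟨x + (0, (m : ℝ)), ⟨(Sk_add_int m).2 h1, by simpa using h2, by simpa using h3,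
      by simpa using h4, by simpa using h5⟩, ?_⟩
    rw [pp_eq]
    right
    exact ⟨by simp, m, by simp⟩

/-- in the interior of the sector -/
lemma strict_of_mem {L j : ℕ} {x : ℝ × ℝ} (hx : x ∈ Sk 0) (h1 : L + 1 ≤ x.1) {m : ℤ}
    (h2 : (j : ℝ) / 2 ^ L ≤ x.2 + m) (h3 : x.2 + m ≤ (j + 1) / 2 ^ L) :
    (j : ℝ) / 2 ^ L + GG x.1 ≤ x.2 + m ∧ x.2 + m ≤ (j + 1) / 2 ^ L - GG x.1 := by
  have hp : (0 : ℝ) < 2 ^ L := by positivity
  have g1 := gap hx h1 (j - m * 2 ^ L)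
  have g2 := gap hx h1 (j + 1 - m * 2 ^ L)
  have e1 : x.2 - ((j - m * 2 ^ L : ℤ) : ℝ) / 2 ^ L = x.2 + m - j / 2 ^ L := by
    push_cast
    field_simp
    ring
  have e2 : x.2 - ((j + 1 - m * 2 ^ L : ℤ) : ℝ) / 2 ^ L = x.2 + m - (j + 1) / 2 ^ L := by
    push_cast
    field_simp
    ring
  rw [e1, abs_of_nonneg (by linarith)] at g1
  rw [e2, abs_of_nonpos (by linarith)] at g2
  constructor <;> linarith

lemma QQ_unique {L j j' : ℕ} (hj : j < 2 ^ L) (hj' : j' < 2 ^ L) {x : ℝ × ℝ}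
    (h : pp x ∈ QQ L j) (h' : pp x ∈ QQ L j') : j = j' := by
  rw [mem_QQ] at h h'
  obtain ⟨hx, h1, -, m, h2, h3⟩ := h
  obtain ⟨-, -, -, m', h2', h3'⟩ := h'
  obtain ⟨a1, a2⟩ := strict_of_mem hx h1 h2 h3
  obtain ⟨b1, b2⟩ := strict_of_mem hx h1 h2' h3'
  have hg := GG_pos x.1
  have hp : (0 : ℝ) < 2 ^ L := by positivity
  have c1 : (j : ℝ) < (x.2 + m) * 2 ^ L := by
    rw [← div_lt_iff₀ hp]
    linarith
  have c2 : (x.2 + m) * 2 ^ L < j + 1 := by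
    rw [← lt_div_iff₀ hp]
    linarith
  have d1 : (j' : ℝ) < (x.2 + m') * 2 ^ L := by
    rw [← div_lt_iff₀ hp]
    linarith
  have d2 : (x.2 + m') * 2 ^ L < j' + 1 := by
    rw [← lt_div_iff₀ hp]
    linarith
  have e1 : ((j : ℤ) - m * 2 ^ L : ℤ) < (j' - m' * 2 ^ L : ℤ) + 1 := by
    have : (j : ℝ) - m * 2 ^ L < j' - m' * 2 ^ L + 1 := by nlinarith
    exact_mod_cast this
  have e2 : ((j' : ℤ) - m' * 2 ^ L : ℤ) < (j - m * 2 ^ L : ℤ) + 1 := by
    have : (j' : ℝ) - m' * 2 ^ L < j - m * 2 ^ L + 1 := by nlinarith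
    exact_mod_cast this
  have e3 : (j : ℤ) - j' = (m - m') * 2 ^ L := by linarith
  have e4 : (j : ℤ) < 2 ^ L := by exact_mod_cast hj
  have e5 : (j' : ℤ) < 2 ^ L := by exact_mod_cast hj'
  have hpz : (0 : ℤ) < 2 ^ L := by positivity
  have e6 : m - m' = 0 := by
    have f1 : m - m' < 1 := by nlinarith
    have f2 : -1 < m - m' := by nlinarith
    omega
  rw [e6] at e3
  omega

lemma QQ_parent {L j : ℕ} {x : ℝ × ℝ} (h : pp x ∈ QQ (L + 1) j) (hr : x.1 ≤ L + 2) :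
    pp x ∈ QQ L (j / 2) := by
  rw [mem_QQ] at h ⊢
  obtain ⟨hx, h1, -, m, h2, h3⟩ := h
  push_cast at h1
  refine ⟨hx, by linarith, hr, m, ?_, ?_⟩
  · have e : ((2 * (j / 2) : ℕ) : ℝ) ≤ j := by exact_mod_cast Nat.mul_div_le j 2
    push_cast at e
    have e2 : (((j / 2 : ℕ) : ℝ)) / 2 ^ L ≤ j / 2 ^ (L + 1) := by
      rw [pow_succ, div_le_div_iff₀ (by positivity) (by positivity)]
      have : (0 : ℝ) < 2 ^ L := by positivity
      nlinarith
    linarith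
  · have e : ((j + 1 : ℕ) : ℝ) ≤ ((2 * (j / 2) + 2 : ℕ) : ℝ) := by
      have : j + 1 ≤ 2 * (j / 2) + 2 := by omega
      exact_mod_cast this
    push_cast at e
    have e2 : ((j : ℝ) + 1) / 2 ^ (L + 1) ≤ (((j / 2 : ℕ) : ℝ) + 1) / 2 ^ L := by
      rw [pow_succ, div_le_div_iff₀ (by positivity) (by positivity)]
      have : (0 : ℝ) < 2 ^ L := by positivity
      nlinarith
    linarith

lemma norm_QQ {L j : ℕ} {z : ℂ} (h : z ∈ QQ L j) : L + 1 ≤ ‖z‖ ∧ ‖z‖ ≤ L + 2 := by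
  obtain ⟨x, ⟨-, h1, h2, -, -⟩, rfl⟩ := h
  have hL : (0 : ℝ) ≤ L := by positivity
  rw [pp_norm_pos (by linarith)]
  exact ⟨h1, h2⟩

lemma norm_Q0 {z : ℂ} (h : z ∈ Q0) : ‖z‖ ≤ 1 := by
  obtain ⟨x, ⟨-, h1⟩, rfl⟩ := h
  rw [pp_norm]
  exact max_le h1 (by norm_num)

lemma half_add {L j : ℕ} (hj : j < 2 ^ (L + 1)) :
    (2 ^ (L + 1) + j) / 2 = 2 ^ L + j / 2 ∧ j / 2 < 2 ^ L := by
  rw [pow_succ] at hj ⊢
  omega

/-- where polygons meet -/
lemma meet {v w : ℕ} {z : ℂ} (hv : z ∈ PP v) (hw : z ∈ PP w) (h : v ≤ w) :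
    v = w ∨ (w ≠ 0 ∧ v = w / 2 ∧ ‖z‖ = Nat.log 2 w + 1) := by
  obtain ⟨x, rfl⟩ := pp_surj z
  rcases cases_vertex v with rfl | ⟨L, j, hj, rfl⟩
  · rcases cases_vertex w with rfl | ⟨L', j', hj', rfl⟩
    · exact Or.inl rfl
    · rw [PP_eq hj'] at hw
      rw [PP_zero] at hv
      have h1 := norm_Q0 hv
      have h2 := (norm_QQ hw).1
      have hL : (0 : ℝ) ≤ L' := by positivity
      have h3 : (L' : ℝ) = 0 := by linarith
      have h4 : L' = 0 := by exact_mod_cast h3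
      subst h4
      have h5 : j' = 0 := by simpa using hj'
      subst h5
      right
      refine ⟨by norm_num, by norm_num, ?_⟩
      norm_num
      norm_num at h2
      linarith
  · rcases cases_vertex w with rfl | ⟨L', j', hj', rfl⟩
    · have : 0 < 2 ^ L := by positivity
      omega
    · rw [PP_eq hj'] at hw
      rw [PP_eq hj] at hv
      have hLL : L ≤ L' := by
        by_contra hcon
        push Not at hcon
        have : 2 ^ (L' + 1) ≤ 2 ^ L := Nat.pow_le_pow_right (by norm_num) hcon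
        rw [pow_succ] at this
        omega
      rcases Nat.lt_or_ge L L' with h1 | h1
      · have a1 := (norm_QQ hv).2
        have a2 := (norm_QQ hw).1
        have h2 : ((L + 1 : ℕ) : ℝ) ≤ L' := by exact_mod_cast h1
        push_cast at h2
        have h3 : (L' : ℝ) = ((L + 1 : ℕ) : ℝ) := by
          push_cast
          linarith
        have h4 : L' = L + 1 := by exact_mod_cast h3
        subst h4
        have hn : ‖pp x‖ = L + 2 := by
          push_cast at a2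
          linarith
        have hx : x.1 ≤ L + 2 := by
          rw [← hn, pp_norm]
          exact le_max_left _ _
        obtain ⟨p1, p2⟩ := half_add hj'
        have h5 := QQ_unique hj p2 hv (QQ_parent hw hx)
        right
        refine ⟨by positivity, by rw [p1, h5], ?_⟩
        rw [log_add hj', hn]
        push_cast
        ring
      · have h2 : L = L' := le_antisymm hLL h1
        subst h2
        left
        rw [QQ_unique hj hj' hv hw]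

/-- every point of the surface is in a polygon -/
lemma cover {x : ℝ × ℝ} (hx : x ∈ Sk 0) : ∃ n, pp x ∈ PP n := by
  by_cases h1 : x.1 ≤ 1
  · exact ⟨0, by rw [PP_zero, mem_Q0]; exact ⟨hx, h1⟩⟩
  · push Not at h1
    obtain ⟨L, hL1, hL2⟩ : ∃ L : ℕ, L + 1 ≤ x.1 ∧ x.1 ≤ L + 2 := by
      refine ⟨⌊x.1 - 1⌋₊, ?_, ?_⟩
      · have := Nat.floor_le (by linarith : 0 ≤ x.1 - 1)
        linarith
      · have := Nat.lt_floor_add_one (x.1 - 1)
        linarith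
    have hp : (0 : ℝ) < 2 ^ L := by positivity
    have hpz : (0 : ℤ) < 2 ^ L := by positivity
    set i := ⌊x.2 * 2 ^ L⌋ with hi
    have hj0 : 0 ≤ i % 2 ^ L := Int.emod_nonneg _ hpz.ne'
    have hj1 : i % 2 ^ L < 2 ^ L := Int.emod_lt_of_pos _ hpz
    obtain ⟨j, hj⟩ := Int.eq_ofNat_of_zero_le hj0
    have hj2 : j < 2 ^ L := by
      have : (j : ℤ) < 2 ^ L := by rw [← hj]; exact hj1
      exact_mod_cast this
    refine ⟨2 ^ L + j, ?_⟩
    rw [PP_eq hj2, mem_QQ]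
    refine ⟨hx, hL1, hL2, -(i / 2 ^ L), ?_⟩
    have hd : (i / 2 ^ L) * 2 ^ L + j = i := by
      have := Int.ediv_mul_add_emod i (2 ^ L)
      rw [hj] at this
      exact_mod_cast this
    have hd' : (((i / 2 ^ L : ℤ) : ℝ)) * 2 ^ L + j = i := by exact_mod_cast hd
    have f1 := Int.floor_le (x.2 * 2 ^ L)
    have f2 := Int.lt_floor_add_one (x.2 * 2 ^ L)
    rw [← hi] at f1 f2
    push_cast
    constructor
    · rw [div_le_iff₀ hp]
      nlinarith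
    · rw [le_div_iff₀ hp]
      nlinarith

lemma PP_sub (n : ℕ) : PP n ⊆ SS := by
  rcases cases_vertex n with rfl | ⟨L, j, hj, rfl⟩
  · rw [PP_zero]
    exact image_mono fun x hx => hx.1
  · rw [PP_eq hj]
    exact image_mono fun x hx => hx.1

lemma SS_eq : (⋃ n, PP n) = SS := by
  apply Subset.antisymm (iUnion_subset PP_sub)
  rintro _ ⟨x, hx, rfl⟩
  exact mem_iUnion.2 (cover hx)

end Pool.Agent.Q238.AR
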