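import Mathlib

/-!
# Polar coordinates as a quotient map, and homeomorphisms of the plane in polar coordinates
-/

set_option autoImplicit false

namespace Pool.Agent.Q238.AR

open Set Topology

/-- the point of the unit circle with angle `t`, in full turns -/
noncomputable def ee (t : ℝ) : ℂ := Complex.exp (2 * Real.pi * t * Complex.I)

lemma ee_norm (t : ℝ) : ‖ee t‖ = 1 := by
  have : ee t = Complex.exp (((2 * Real.pi * t : ℝ) : ℂ) * Complex.I) := by
    unfold ee
    push_cast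
    rfl
  rw [this, Complex.norm_exp_ofReal_mul_I]

lemma ee_ne (t : ℝ) : ee t ≠ 0 := Complex.exp_ne_zero _

lemma ee_eq {s t : ℝ} : ee s = ee t ↔ ∃ m : ℤ, s = t + m := by
  unfold ee
  rw [Complex.exp_eq_exp_iff_exists_int]
  have hpi : (2 * (Real.pi : ℂ) * Complex.I) ≠ 0 := Complex.two_pi_I_ne_zero
  constructor
  · rintro ⟨n, hn⟩
    refine ⟨n, ?_⟩
    have h1 : (2 * (Real.pi : ℂ) * Complex.I) * s = (2 * (Real.pi : ℂ) * Complex.I) * (t + n) := by
      linear_combination hn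
    have h2 := mul_left_cancel₀ hpi h1
    exact_mod_cast h2
  · rintro ⟨n, rfl⟩
    refine ⟨n, ?_⟩
    push_cast
    ring

lemma ee_cont : Continuous ee := by
  unfold ee
  fun_prop

/-- polar coordinates; all points with `r ≤ 0` give the origin -/
noncomputable def pp (x : ℝ × ℝ) : ℂ := ((max x.1 0 : ℝ) : ℂ) * ee x.2

lemma pp_cont : Continuous pp := by
  unfold pp
  have := ee_cont
  fun_prop

lemma pp_norm (x : ℝ × ℝ) : ‖pp x‖ = max x.1 0 := by
  unfold pp
  rw [norm_mul, ee_norm, mul_one, Complex.norm_real, Real.norm_of_nonneg (le_max_right _ _)]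

lemma pp_surj : Function.Surjective pp := by
  intro z
  refine ⟨(‖z‖, Complex.arg z / (2 * Real.pi)), ?_⟩
  unfold pp ee
  simp only [max_eq_left (norm_nonneg z)]
  have h : (2 * (Real.pi : ℂ) * ((Complex.arg z / (2 * Real.pi) : ℝ) : ℂ) * Complex.I)
      = Complex.arg z * Complex.I := by
    push_cast
    have : (Real.pi : ℂ) ≠ 0 := by exact_mod_cast Real.pi_ne_zero
    field_simp
  rw [h]
  exact Complex.norm_mul_exp_arg_mul_I z

lemma pp_eq {x y : ℝ × ℝ} : pp x = pp y ↔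
    (x.1 ≤ 0 ∧ y.1 ≤ 0) ∨ (x.1 = y.1 ∧ ∃ m : ℤ, x.2 = y.2 + m) := by
  constructor
  · intro h
    have h1 : max x.1 0 = max y.1 0 := by rw [← pp_norm, ← pp_norm, h]
    by_cases hx : x.1 ≤ 0
    · left
      refine ⟨hx, ?_⟩
      rw [max_eq_right hx] at h1
      rw [h1]
      exact le_max_left _ _
    · right
      push Not at hx
      rw [max_eq_left hx.le] at h1
      have hy : 0 < y.1 := by
        by_contra hy
        push Not at hy
        rw [max_eq_right hy] at h1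
        linarith
      rw [max_eq_left hy.le] at h1
      refine ⟨h1, ?_⟩
      unfold pp at h
      rw [max_eq_left hx.le, max_eq_left hy.le, ← h1] at h
      have h2 : ((x.1 : ℝ) : ℂ) ≠ 0 := by exact_mod_cast hx.ne'
      exact ee_eq.1 (mul_left_cancel₀ h2 h)
  · rintro (⟨hx, hy⟩ | ⟨h1, h2⟩)
    · unfold pp
      rw [max_eq_right hx, max_eq_right hy]
      simp
    · unfold pp
      rw [h1, ee_eq.2 h2]

lemma pp_quot : IsQuotientMap pp := by
  have hD : IsClosed (Ici (0 : ℝ) ×ˢ Icc (0 : ℝ) 1) := isClosed_Ici.prod isClosed_Icc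
  let q : (Ici (0 : ℝ) ×ˢ Icc (0 : ℝ) 1 : Set (ℝ × ℝ)) → ℂ := fun x => pp x.1
  have hq : Continuous q := pp_cont.comp continuous_subtype_val
  have hprop : IsProperMap q := by
    rw [isProperMap_iff_isCompact_preimage]
    refine ⟨hq, fun K hK => ?_⟩
    obtain ⟨R, hR⟩ := hK.isBounded.subset_closedBall (0 : ℂ)
    have h1 : IsCompact (Icc (0 : ℝ) R ×ˢ Icc (0 : ℝ) 1) := isCompact_Icc.prod isCompact_Icc
    have h2 := hD.isClosedEmbedding_subtypeVal.isCompact_preimage h1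
    refine h2.of_isClosed_subset (hK.isClosed.preimage hq) ?_
    intro x hx
    have h3 := hR hx
    rw [mem_closedBall_zero_iff] at h3
    have h4 : ‖pp x.1‖ ≤ R := h3
    rw [pp_norm] at h4
    exact ⟨⟨x.2.1, (le_max_left _ _).trans h4⟩, x.2.2⟩
  have hsurj : Function.Surjective q := by
    intro z
    obtain ⟨x, rfl⟩ := pp_surj z
    refine ⟨⟨(max x.1 0, Int.fract x.2), ⟨show (0 : ℝ) ≤ max x.1 0 from le_max_right _ _,
      Int.fract_nonneg _, (Int.fract_lt_one _).le⟩⟩, ?_⟩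
    change pp (max x.1 0, Int.fract x.2) = pp x
    rw [pp_eq]
    by_cases hx : x.1 ≤ 0
    · left
      exact ⟨by simp [hx], hx⟩
    · right
      push Not at hx
      refine ⟨max_eq_left hx.le, -⌊x.2⌋, ?_⟩
      simp only [Int.fract]
      push_cast
      ring
  have hquot : IsQuotientMap q := hprop.isClosedMap.isQuotientMap hq hsurj
  exact IsQuotientMap.of_comp continuous_subtype_val pp_cont hquot

/-- the group of homeomorphisms in polar coordinates -/
def EE : Subgroup (ℝ × ℝ ≃ₜ ℝ × ℝ) where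
  carrier := {f | (∀ x, f (x + (0, 1)) = f x + (0, 1)) ∧ ∀ x, (f x).1 ≤ 0 ↔ x.1 ≤ 0}
  one_mem' := ⟨fun _ => rfl, fun _ => Iff.rfl⟩
  mul_mem' := by
    rintro f g ⟨a1, a2⟩ ⟨b1, b2⟩
    refine ⟨fun x => ?_, fun x => ?_⟩
    · change f (g (x + (0, 1))) = f (g x) + (0, 1)
      rw [b1, a1]
    · exact (a2 (g x)).trans (b2 x)
  inv_mem' := by
    rintro f ⟨a1, a2⟩
    refine ⟨fun x => ?_, fun x => ?_⟩
    · change f.symm (x + (0, 1)) = f.symm x + (0, 1)
      rw [Homeomorph.symm_apply_eq, a1, f.apply_symm_apply]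
    · have := a2 (f.symm x)
      rw [f.apply_symm_apply] at this
      exact this.symm

lemma EE_nat {f : ℝ × ℝ ≃ₜ ℝ × ℝ} (hf : f ∈ EE) (n : ℕ) (x : ℝ × ℝ) :
    f (x + (0, (n : ℝ))) = f x + (0, (n : ℝ)) := by
  induction n with
  | zero =>
    rw [Nat.cast_zero]
    change f (x + 0) = f x + 0
    simp
  | succ n ih =>
    have h1 : x + (0, ((n + 1 : ℕ) : ℝ)) = x + (0, (n : ℝ)) + (0, 1) := by
      rw [add_assoc]
      simp
    have h2 : f x + (0, ((n + 1 : ℕ) : ℝ)) = f x + (0, (n : ℝ)) + (0, 1) := by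
      rw [add_assoc]
      simp
    rw [h1, hf.1, ih, h2]

lemma EE_int {f : ℝ × ℝ ≃ₜ ℝ × ℝ} (hf : f ∈ EE) (m : ℤ) (x : ℝ × ℝ) :
    f (x + (0, (m : ℝ))) = f x + (0, (m : ℝ)) := by
  obtain ⟨n, rfl | rfl⟩ := m.eq_nat_or_neg
  · exact_mod_cast EE_nat hf n x
  · have h1 := EE_nat hf n (x + (0, ((-(n : ℤ) : ℤ) : ℝ)))
    have h2 : x + (0, ((-(n : ℤ) : ℤ) : ℝ)) + (0, (n : ℝ)) = x := by
      rw [add_assoc]
      simp
    rw [h2] at h1
    rw [h1, add_assoc]
    simp

lemma EE_compat {f : ℝ × ℝ ≃ₜ ℝ × ℝ} (hf : f ∈ EE) {x y : ℝ × ℝ} (h : pp x = pp y) :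
    pp (f x) = pp (f y) := by
  rw [pp_eq] at h
  rcases h with ⟨hx, hy⟩ | ⟨h1, m, h2⟩
  · exact pp_eq.2 (Or.inl ⟨(hf.2 x).2 hx, (hf.2 y).2 hy⟩)
  · have h3 : x = y + (0, (m : ℝ)) := by
      ext
      · simp [h1]
      · simp [h2]
    rw [h3, EE_int hf, pp_eq]
    right
    exact ⟨by simp, m, by simp⟩

/-- the map of the plane given by a homeomorphism in polar coordinates -/
noncomputable def dsc (f : ℝ × ℝ ≃ₜ ℝ × ℝ) (z : ℂ) : ℂ := pp (f (Function.surjInv pp_surj z))

lemma dsc_pp {f : ℝ × ℝ ≃ₜ ℝ × ℝ} (hf : f ∈ EE) (x : ℝ × ℝ) : dsc f (pp x) = pp (f x) :=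
  EE_compat hf (Function.surjInv_eq pp_surj (pp x))

lemma dsc_cont {f : ℝ × ℝ ≃ₜ ℝ × ℝ} (hf : f ∈ EE) : Continuous (dsc f) := by
  rw [pp_quot.continuous_iff]
  have : dsc f ∘ pp = pp ∘ f := funext fun x => dsc_pp hf x
  rw [this]
  exact pp_cont.comp f.continuous

lemma dsc_comp {f g : ℝ × ℝ ≃ₜ ℝ × ℝ} (hf : f ∈ EE) (hg : g ∈ EE) (z : ℂ) :
    dsc f (dsc g z) = dsc (f * g) z := by
  obtain ⟨x, rfl⟩ := pp_surj z
  rw [dsc_pp hg, dsc_pp hf, dsc_pp (EE.mul_mem hf hg)]
  rfl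

lemma dsc_one (z : ℂ) : dsc 1 z = z := by
  obtain ⟨x, rfl⟩ := pp_surj z
  rw [dsc_pp EE.one_mem]
  rfl

/-- the homeomorphism of the plane given by a homeomorphism in polar coordinates -/
noncomputable def Dsc : EE →* (ℂ ≃ₜ ℂ) where
  toFun f :=
    { toFun := dsc f.1
      invFun := dsc f.1⁻¹
      left_inv := fun z => by
        rw [dsc_comp (EE.inv_mem f.2) f.2, inv_mul_cancel, dsc_one]
      right_inv := fun z => by
        rw [dsc_comp f.2 (EE.inv_mem f.2), mul_inv_cancel, dsc_one]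
      continuous_toFun := dsc_cont f.2
      continuous_invFun := dsc_cont (EE.inv_mem f.2) }
  map_one' := by
    ext z
    exact dsc_one z
  map_mul' f g := by
    ext z
    exact (dsc_comp f.2 g.2 z).symm

lemma Dsc_pp (f : EE) (x : ℝ × ℝ) : Dsc f (pp x) = pp (f.1 x) := dsc_pp f.2 x

/-- Homeomorphisms of the plane `(a, x) ↦ (a, f a x)`, `f` increasing in `x`. -/
noncomputable def fib (f : ℝ × ℝ → ℝ) (hc : Continuous f) (hm : ∀ a, StrictMono fun x => f (a, x))
    (hs : ∀ a, Function.Surjective fun x => f (a, x)) : ℝ × ℝ ≃ₜ ℝ × ℝ where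
  toFun x := (x.1, f x)
  invFun x := (x.1, Function.surjInv (hs x.1) x.2)
  left_inv x := by
    have := Function.surjInv_eq (hs x.1) (f x)
    ext
    · rfl
    · exact (hm x.1).injective this
  right_inv x := by
    ext
    · rfl
    · exact Function.surjInv_eq (hs x.1) x.2
  continuous_toFun := continuous_fst.prodMk hc
  continuous_invFun := by
    refine continuous_fst.prodMk ?_
    have key : ∀ (x : ℝ × ℝ), f (x.1, Function.surjInv (hs x.1) x.2) = x.2 := fun x =>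
      Function.surjInv_eq (hs x.1) x.2
    rw [continuous_iff_continuousAt]
    intro x
    refine tendsto_order.2 ⟨fun b hb => ?_, fun b hb => ?_⟩
    · have h1 : f (x.1, b) < x.2 := by
        rw [← key x]
        exact hm x.1 hb
      have h2 : ∀ᶠ y : ℝ × ℝ in 𝓝 x, f (y.1, b) < y.2 :=
        (isOpen_lt (by fun_prop) continuous_snd).mem_nhds h1
      filter_upwards [h2] with y hy
      rw [← key y] at hy
      exact (hm y.1).lt_iff_lt.1 hy
    · have h1 : x.2 < f (x.1, b) := by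
        nth_rewrite 1 [← key x]
        exact hm x.1 hb
      have h2 : ∀ᶠ y : ℝ × ℝ in 𝓝 x, y.2 < f (y.1, b) :=
        (isOpen_lt continuous_snd (by fun_prop)).mem_nhds h1
      filter_upwards [h2] with y hy
      nth_rewrite 1 [← key y] at hy
      exact (hm y.1).lt_iff_lt.1 hy

end Pool.Agent.Q238.AR
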