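import Pool.Agent.Q238.AR.Model

/-!
# The polygons form a rigid structure
-/

set_option autoImplicit false

namespace Pool.Agent.Q238.AR

open Set Topology

lemma PP_far {v w : ℕ} (hvw : v ≠ w) (h : ¬ TT.Adj v w) : Disjoint (PP v) (PP w) := by
  rw [Set.disjoint_left]
  intro z hv hw
  rcases le_total v w with h1 | h1
  · rcases meet hv hw h1 with h2 | ⟨-, h2, -⟩
    · exact hvw h2
    · exact h ⟨hvw, Or.inl h2⟩
  · rcases meet hw hv h1 with h2 | ⟨-, h2, -⟩
    · exact hvw h2.symm
    · exact h ⟨hvw, Or.inr h2⟩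

lemma PP_norm_ge {n : ℕ} (hn : n ≠ 0) {z : ℂ} (h : z ∈ PP n) : Nat.log 2 n + 1 ≤ ‖z‖ := by
  rcases cases_vertex n with rfl | ⟨L, j, hj, rfl⟩
  · exact absurd rfl hn
  · rw [PP_eq hj] at h
    rw [log_add hj]
    exact (norm_QQ h).1

lemma PP_norm_le {n : ℕ} (hn : n ≠ 0) {z : ℂ} (h : z ∈ PP n) : ‖z‖ ≤ Nat.log 2 n + 2 := by
  rcases cases_vertex n with rfl | ⟨L, j, hj, rfl⟩
  · exact absurd rfl hn
  · rw [PP_eq hj] at h
    rw [log_add hj]
    exact (norm_QQ h).2

lemma PP_half_norm {n : ℕ} (hn : n ≠ 0) {z : ℂ} (h : z ∈ PP (n / 2)) :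
    ‖z‖ ≤ Nat.log 2 n + 1 := by
  by_cases h2 : n / 2 = 0
  · have h1 : n = 1 := by omega
    subst h1
    rw [h2, PP_zero] at h
    simpa using norm_Q0 h
  · have h3 := PP_norm_le h2 h
    have h4 : Nat.log 2 n = Nat.log 2 (n / 2) + 1 := by
      rw [Nat.log_div_base]
      have : 0 < Nat.log 2 n := Nat.log_pos (by norm_num) (by omega)
      omega
    rw [h4]
    push_cast
    linarith

lemma PP_inter {v w : ℕ} (hvw : v ≠ w) : Disjoint (interior (PP v)) (PP w) := by
  rw [Set.disjoint_left]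
  intro z hv hw
  have hv' := interior_subset hv
  rcases le_total v w with h1 | h1
  · rcases meet hv' hw h1 with h2 | ⟨h0, h2, h3⟩
    · exact hvw h2
    · have h4 : PP v ⊆ Metric.closedBall 0 (Nat.log 2 w + 1) := by
        intro y hy
        rw [mem_closedBall_zero_iff]
        rw [h2] at hy
        exact PP_half_norm h0 hy
      have h5 := interior_mono h4 hv
      rw [interior_closedBall _ (by positivity), mem_ball_zero_iff, h3] at h5
      exact lt_irrefl _ h5
  · rcases meet hw hv' h1 with h2 | ⟨h0, h2, h3⟩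
    · exact hvw h2.symm
    · have h4 : PP v ⊆ (Metric.ball 0 (Nat.log 2 v + 1))ᶜ := by
        intro y hy
        rw [mem_compl_iff, mem_ball_zero_iff, not_lt]
        exact PP_norm_ge h0 hy
      have h5 := interior_mono h4 hv
      rw [interior_compl, closure_ball _ (by positivity), mem_compl_iff,
        mem_closedBall_zero_iff, h3] at h5
      exact h5 le_rfl

lemma PP_locFin : LocallyFinite PP := by
  intro z
  refine ⟨Metric.ball z 1, Metric.ball_mem_nhds _ one_pos, ?_⟩
  obtain ⟨N, hN⟩ := exists_nat_gt (‖z‖ + 1)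
  refine (Set.finite_Iio (2 ^ (N + 1))).subset ?_
  rintro n ⟨y, hy, hy2⟩
  rw [Set.mem_Iio]
  by_cases hn : n = 0
  · subst hn
    positivity
  · have h1 := PP_norm_ge hn hy
    have h2 : ‖y‖ < ‖z‖ + 1 := by
      rw [Metric.mem_ball, dist_eq_norm] at hy2
      have := norm_sub_norm_le y z
      linarith
    have h3 : Nat.log 2 n < N := by
      have : (Nat.log 2 n : ℝ) < N := by linarith
      exact_mod_cast this
    exact (Nat.lt_pow_succ_log_self (by norm_num) n).trans_le
      (Nat.pow_le_pow_right (by norm_num) (by omega))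

/-- a continuous injective image of a compact space -/
lemma homeo_of_inj {K : Type*} [TopologicalSpace K] [CompactSpace K] {f : K → ℂ}
    (hf : Continuous f) (hi : Function.Injective f) {A : Set ℂ} (hA : range f = A) :
    Nonempty (K ≃ₜ A) := by
  subst hA
  have h := hf.isClosedEmbedding hi
  exact ⟨h.isEmbedding.toHomeomorph⟩

/-- the arcs -/
def Arc (L j : ℕ) : Set ℂ :=
  pp '' {x | x.1 = L + 1 ∧ x.2 ∈ Icc ((j : ℝ) / 2 ^ L + wk L) ((j + 1) / 2 ^ L - wk L)}

lemma wk_lt (L : ℕ) : 4 * wk L ≤ 1 / 2 ^ L := by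
  have h := wk_mul L
  have hp : (0 : ℝ) < 2 ^ L := by positivity
  rw [le_div_iff₀ hp]
  linarith

lemma arc_lt (L j : ℕ) : (j : ℝ) / 2 ^ L + wk L < (j + 1) / 2 ^ L - wk L := by
  have h := wk_lt L
  have := wk_pos L
  rw [add_div]
  linarith

lemma arc_homeo (L j : ℕ) : Nonempty (Arc L j ≃ₜ unitInterval) := by
  have hlt := arc_lt L j
  let f : Icc ((j : ℝ) / 2 ^ L + wk L) ((j + 1) / 2 ^ L - wk L) → ℂ := fun t => pp (L + 1, t)
  have hL : (0 : ℝ) ≤ L := by positivity
  have hf : Continuous f := pp_cont.comp (by fun_prop)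
  have hw := wk_pos L
  have hi : Function.Injective f := by
    intro s t hst
    have h1 : pp ((L : ℝ) + 1, (s : ℝ)) = pp ((L : ℝ) + 1, (t : ℝ)) := hst
    rw [pp_eq] at h1
    rcases h1 with ⟨h2, -⟩ | ⟨-, m, h2⟩
    · simp only at h2
      linarith
    · simp only at h2
      have a1 := s.2.1
      have a2 := s.2.2
      have b1 := t.2.1
      have b2 := t.2.2
      have hp : (1 : ℝ) ≤ 2 ^ L := one_le_pow₀ (by norm_num)
      have h3 : (1 : ℝ) / 2 ^ L ≤ 1 := by
        rw [div_le_one (by positivity)]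
        exact hp
      have hadd : ((j : ℝ) + 1) / 2 ^ L = j / 2 ^ L + 1 / 2 ^ L := add_div _ _ _
      have h4 : (m : ℝ) < 1 := by linarith
      have h5 : (-1 : ℝ) < m := by linarith
      have h6 : m = 0 := by
        have h7 : m < 1 := by exact_mod_cast h4
        have h8 : -1 < m := by exact_mod_cast h5
        omega
      rw [h6] at h2
      apply Subtype.ext
      simpa using h2
  have hr : range f = Arc L j := by
    ext z
    constructor
    · rintro ⟨t, rfl⟩
      exact ⟨_, ⟨rfl, t.2⟩, rfl⟩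
    · rintro ⟨⟨r, t⟩, ⟨hx, hx2⟩, rfl⟩
      simp only at hx hx2
      subst hx
      exact ⟨⟨t, hx2⟩, rfl⟩
  obtain ⟨e⟩ := homeo_of_inj hf hi hr
  exact ⟨e.symm.trans (iccHomeoI _ _ hlt)⟩

/-- away from the old notches -/
lemma far_int {L j : ℕ} {t c : ℝ} (h1 : (j : ℝ) / 2 ^ L + c ≤ t) (h2 : t ≤ (j + 1) / 2 ^ L - c)
    (i : ℤ) : c ≤ |t - i / 2 ^ L| := by
  have hp : (0 : ℝ) < 2 ^ L := by positivity
  rcases le_or_gt i j with h | h
  · have h3 : (i : ℝ) / 2 ^ L ≤ j / 2 ^ L := by
      apply div_le_div_of_nonneg_right _ hp.le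
      exact_mod_cast h
    exact le_trans (by linarith) (le_abs_self _)
  · have h3 : ((j : ℝ) + 1) / 2 ^ L ≤ i / 2 ^ L := by
      apply div_le_div_of_nonneg_right _ hp.le
      exact_mod_cast h
    exact le_trans (by linarith) (neg_le_abs _)

lemma arc_eq {L j : ℕ} (hj : j < 2 ^ L) :
    PP ((2 ^ L + j) / 2) ∩ PP (2 ^ L + j) = Arc L j := by
  have hL : (0 : ℝ) ≤ L := by positivity
  have hn : 2 ^ L + j ≠ 0 := by positivity
  ext z
  constructor
  · rintro ⟨h1, h2⟩
    have h3 := PP_half_norm hn h1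
    rw [log_add hj] at h3
    rw [PP_eq hj] at h2
    obtain ⟨x, ⟨hx, a1, a2, a3, a4⟩, rfl⟩ := h2
    rw [pp_norm_pos (by linarith)] at h3
    have h4 : x.1 = L + 1 := le_antisymm h3 a1
    refine ⟨x, ⟨h4, ?_⟩, rfl⟩
    obtain ⟨b1, b2⟩ := strict_of_mem (m := 0) hx a1 (by simpa using a3) (by simpa using a4)
    rw [h4, GG_nat] at b1 b2
    simp only [Int.cast_zero, add_zero] at b1 b2
    exact ⟨b1, b2⟩
  · rintro ⟨⟨r, t⟩, ⟨hr, hx2⟩, rfl⟩
    simp only at hr hx2
    subst hr
    have hw := wk_pos L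
    have hS : ((L : ℝ) + 1, t) ∈ Sk 0 := by
      rw [mem_Sk_iff (L := L) (by simp) (by simp only; linarith)]
      refine ⟨fun i => ?_, fun m _ => ?_⟩
      · simp only
        rw [GG_nat]
        exact far_int hx2.1 hx2.2 i
      · exact (NN_nonpos (by push_cast; linarith)).trans (abs_nonneg _)
    have hQ : pp ((L : ℝ) + 1, t) ∈ QQ L j := by
      rw [mem_QQ]
      refine ⟨hS, by simp, by simp only; linarith, 0, ?_, ?_⟩
      · simp only [Int.cast_zero, add_zero]
        linarith [hx2.1]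
      · simp only [Int.cast_zero, add_zero]
        linarith [hx2.2]
    refine ⟨?_, by rw [PP_eq hj]; exact hQ⟩
    rcases Nat.eq_zero_or_pos L with h0 | h0
    · subst h0
      have h5 : j = 0 := by simpa using hj
      subst h5
      have h6 : (2 ^ 0 + 0) / 2 = 0 := by norm_num
      rw [h6, PP_zero, mem_Q0]
      exact ⟨hS, by norm_num⟩
    · obtain ⟨M, rfl⟩ := Nat.exists_eq_succ_of_ne_zero h0.ne'
      obtain ⟨p1, p2⟩ := half_add (L := M) hj
      rw [Nat.succ_eq_add_one, p1, PP_eq p2]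
      refine QQ_parent hQ ?_
      push_cast
      linarith

lemma PP_arc {v w : ℕ} (h : TT.Adj v w) : Nonempty (↥(PP v ∩ PP w) ≃ₜ unitInterval) := by
  have key : ∀ w : ℕ, w ≠ 0 → Nonempty (↥(PP (w / 2) ∩ PP w) ≃ₜ unitInterval) := by
    intro w hw
    rcases cases_vertex w with rfl | ⟨L, j, hj, rfl⟩
    · exact absurd rfl hw
    · rw [arc_eq hj]
      exact arc_homeo L j
  rw [TT_adj] at h
  obtain ⟨h1, rfl | rfl⟩ := h
  · exact key w (by omega)
  · rw [inter_comm]
    exact key v (by omega)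

/-- the root polygon is a disc -/
noncomputable def bb (t : ℝ) : ℝ :=
  min 1 (2 / 3 + 8 / 3 * min (Int.fract t) (1 - Int.fract t))

lemma bb_cont : Continuous bb := by
  have h0 : Continuous fun x : ℝ => min (1 : ℝ) (2 / 3 + 8 / 3 * min x (1 - x)) := by fun_prop
  have h1 : Continuous fun u : ℝ =>
      (fun x : ℝ => min (1 : ℝ) (2 / 3 + 8 / 3 * min x (1 - x))) (Int.fract u) := by
    refine ContinuousOn.comp_fract'' h0.continuousOn ?_
    norm_num
  exact h1

lemma bb_pos (t : ℝ) : 0 < bb t := by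
  unfold bb
  have h1 := Int.fract_nonneg t
  have h2 := Int.fract_lt_one t
  have h3 : 0 ≤ min (Int.fract t) (1 - Int.fract t) := le_min h1 (by linarith)
  exact lt_min one_pos (by linarith)

lemma bb_add (t : ℝ) : bb (t + 1) = bb t := by
  unfold bb
  rw [Int.fract_add_one]

lemma min_fract_le (t : ℝ) (m : ℤ) : min (Int.fract t) (1 - Int.fract t) ≤ |t - m| := by
  have h1 := Int.floor_add_fract t
  rcases le_or_gt m ⌊t⌋ with h | h
  · have h3 : (m : ℝ) ≤ ⌊t⌋ := by exact_mod_cast h
    exact (min_le_left _ _).trans (le_trans (by linarith) (le_abs_self _))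
  · have h3 : (⌊t⌋ : ℝ) + 1 ≤ m := by exact_mod_cast h
    exact (min_le_right _ _).trans (le_trans (by linarith) (neg_le_abs _))

lemma exists_min_fract (t : ℝ) : ∃ m : ℤ, |t - m| = min (Int.fract t) (1 - Int.fract t) := by
  have h1 := Int.floor_add_fract t
  have h2 := Int.fract_nonneg t
  have h3 := (Int.fract_lt_one t).le
  rcases le_total (Int.fract t) (1 - Int.fract t) with h | h
  · refine ⟨⌊t⌋, ?_⟩
    rw [min_eq_left h, abs_of_nonneg (by linarith)]
    linarith
  · refine ⟨⌊t⌋ + 1, ?_⟩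
    push_cast
    rw [min_eq_right h, abs_of_nonpos (by linarith)]
    linarith

lemma Sk_root {r t : ℝ} (hr : r ≤ 1) : (r, t) ∈ Sk 0 ↔ r ≤ bb t := by
  rw [mem_Sk_small (by push_cast; linarith)]
  have hM : MM 0 r = 3 / 8 * (r - 2 / 3) := by
    unfold MM wk
    norm_num
    ring
  rw [hM]
  unfold bb
  constructor
  · intro h
    obtain ⟨m, hm⟩ := exists_min_fract t
    have := h m
    simp only [pow_zero, div_one] at this
    rw [hm] at this
    exact le_min hr (by linarith)
  · intro h m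
    have h1 := min_fract_le t m
    have h2 := h.trans (min_le_right _ _)
    simp only [pow_zero, div_one]
    linarith

/-- the radial map which maps the disc to the root polygon -/
noncomputable def BB : ℝ × ℝ ≃ₜ ℝ × ℝ :=
  (Homeomorph.prodComm ℝ ℝ).trans ((fib (fun x => bb x.1 * x.2)
    (by have := bb_cont; fun_prop)
    (fun t => by
      intro r s h
      exact mul_lt_mul_of_pos_left h (bb_pos t))
    (fun t r => ⟨r / bb t, by
      have := bb_pos t
      simp only
      field_simp⟩)).trans (Homeomorph.prodComm ℝ ℝ))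

lemma BB_apply (r t : ℝ) : BB (r, t) = (bb t * r, t) := rfl

lemma BB_mem : BB ∈ EE := by
  refine ⟨fun x => ?_, fun x => ?_⟩
  · obtain ⟨r, t⟩ := x
    have h1 : ((r, t) : ℝ × ℝ) + (0, 1) = (r, t + 1) := by simp
    rw [h1, BB_apply, BB_apply, bb_add]
    simp
  · obtain ⟨r, t⟩ := x
    rw [BB_apply]
    have := bb_pos t
    simp only
    constructor
    · intro h
      by_contra hcon
      push Not at hcon
      have := mul_pos this hcon
      linarith
    · intro h
      nlinarith

lemma root_disc : Nonempty (Q0 ≃ₜ Metric.closedBall (0 : ℂ) 1) := by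
  have h1 : Dsc ⟨BB, BB_mem⟩ '' Metric.closedBall (0 : ℂ) 1 = Q0 := by
    ext z
    constructor
    · rintro ⟨y, hy, rfl⟩
      obtain ⟨⟨r, t⟩, rfl⟩ := pp_surj y
      rw [mem_closedBall_zero_iff, pp_norm] at hy
      have hr : r ≤ 1 := (le_max_left _ _).trans hy
      rw [Dsc_pp]
      change pp (BB (r, t)) ∈ Q0
      rw [mem_Q0, BB_apply]
      have hb := bb_pos t
      have hb1 : bb t ≤ 1 := min_le_left _ _
      have hle : bb t * r ≤ bb t := by nlinarith
      exact ⟨(Sk_root (hle.trans hb1)).2 hle, hle.trans hb1⟩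
    · rintro ⟨⟨r, t⟩, ⟨h2, h3⟩, rfl⟩
      simp only at h3
      have hb := bb_pos t
      rw [Sk_root h3] at h2
      refine ⟨pp (r / bb t, t), ?_, ?_⟩
      · rw [mem_closedBall_zero_iff, pp_norm]
        refine max_le ?_ (by norm_num)
        rw [div_le_one hb]
        exact h2
      · rw [Dsc_pp]
        change pp (BB (r / bb t, t)) = pp (r, t)
        rw [BB_apply]
        congr 2
        field_simp
  rw [← h1]
  exact ⟨((Dsc ⟨BB, BB_mem⟩).image _).symm⟩

/-- the convex model of the polygons of level `L` -/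
def KK (L : ℕ) : Set ℂ :=
  {z | 0 ≤ z.re ∧ z.re ≤ 1 ∧ |z.im| ≤ 1 / 2 ^ (L + 1) - GG (L + 1 + z.re)}

lemma GG_convex {a b x y : ℝ} (ha : 0 ≤ a) (hb : 0 ≤ b) (hab : a + b = 1) :
    GG (a * x + b * y) ≤ a * GG x + b * GG y := by
  have h := (convexOn_rpow_left (b := 2) (by norm_num)).2 (mem_univ (-(x + 2)))
    (mem_univ (-(y + 2))) ha hb hab
  simp only [smul_eq_mul] at h
  unfold GG
  have e : -(a * x + b * y + 2) = a * -(x + 2) + b * -(y + 2) := by
    have : (2 : ℝ) = (a + b) * 2 := by rw [hab]; norm_num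
    nlinarith
  rw [e]
  exact h

lemma KK_convex (L : ℕ) : Convex ℝ (KK L) := by
  intro x hx y hy a b ha hb hab
  obtain ⟨x1, x2, x3⟩ := hx
  obtain ⟨y1, y2, y3⟩ := hy
  have hre : (a • x + b • y).re = a * x.re + b * y.re := by simp
  have him : (a • x + b • y).im = a * x.im + b * y.im := by simp
  refine ⟨?_, ?_, ?_⟩
  · rw [hre]
    positivity
  · rw [hre]
    nlinarith
  · rw [hre, him]
    have h1 : |a * x.im + b * y.im| ≤ a * |x.im| + b * |y.im| := by
      calc |a * x.im + b * y.im| ≤ |a * x.im| + |b * y.im| := abs_add_le _ _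
        _ = a * |x.im| + b * |y.im| := by
          rw [abs_mul, abs_mul, abs_of_nonneg ha, abs_of_nonneg hb]
    have h2 := GG_convex (x := L + 1 + x.re) (y := L + 1 + y.re) ha hb hab
    have h3 : a * (L + 1 + x.re) + b * (L + 1 + y.re) = L + 1 + (a * x.re + b * y.re) := by
      have : (L : ℝ) + 1 = (a + b) * (L + 1) := by rw [hab]; ring
      nlinarith
    rw [h3] at h2
    have h4 : a * |x.im| ≤ a * (1 / 2 ^ (L + 1) - GG (L + 1 + x.re)) :=
      mul_le_mul_of_nonneg_left x3 ha
    have h5 : b * |y.im| ≤ b * (1 / 2 ^ (L + 1) - GG (L + 1 + y.re)) :=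
      mul_le_mul_of_nonneg_left y3 hb
    have h6 : a * (1 / 2 ^ (L + 1)) + b * (1 / 2 ^ (L + 1)) = (1 : ℝ) / 2 ^ (L + 1) := by
      rw [← add_mul, hab, one_mul]
    linarith

lemma KK_closed (L : ℕ) : IsClosed (KK L) := by
  have hG := GG_cont
  refine (isClosed_le continuous_const Complex.continuous_re).inter
    ((isClosed_le Complex.continuous_re continuous_const).inter
      (isClosed_le (f := fun z : ℂ => |z.im|)
        (g := fun z : ℂ => 1 / 2 ^ (L + 1) - GG (L + 1 + z.re)) ?_ ?_))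
  · exact Complex.continuous_im.abs
  · have := Complex.continuous_re
    fun_prop

lemma KK_bdd (L : ℕ) : Bornology.IsBounded (KK L) := by
  refine (Metric.isBounded_closedBall (x := (0 : ℂ)) (r := 2)).subset ?_
  rintro z ⟨h1, h2, h3⟩
  rw [mem_closedBall_zero_iff]
  have hG := GG_pos (L + 1 + z.re)
  have hp : (1 : ℝ) / 2 ^ (L + 1) ≤ 1 := by
    rw [div_le_one (by positivity)]
    exact one_le_pow₀ (by norm_num)
  have h4 := Complex.norm_le_abs_re_add_abs_im z
  rw [abs_of_nonneg h1] at h4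
  linarith

lemma wk_half (L : ℕ) : (1 : ℝ) / 2 ^ (L + 1) = 4 * wk L := by
  have h := wk_mul L
  rw [pow_succ]
  have hp : (0 : ℝ) < 2 ^ L := by positivity
  rw [div_eq_iff (by positivity)]
  linarith

lemma GG_between {L : ℕ} {s : ℝ} (h : 0 ≤ s) : GG (L + 1 + s) ≤ wk L := by
  rw [← GG_nat]
  exact GG_anti (by linarith)

lemma KK_int (L : ℕ) : (interior (KK L)).Nonempty := by
  have hw := wk_pos L
  refine ⟨⟨1 / 2, 0⟩, ?_⟩
  rw [mem_interior]
  refine ⟨{z | 0 < z.re} ∩ ({z | z.re < 1} ∩ {z | |z.im| < wk L}), ?_, ?_, ?_⟩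
  · rintro z ⟨h1, h2, h3⟩
    simp only [mem_ofPred_eq] at h1 h2 h3
    refine ⟨h1.le, h2.le, ?_⟩
    have := GG_between (L := L) h1.le
    rw [wk_half]
    linarith
  · exact (isOpen_lt continuous_const Complex.continuous_re).inter
      ((isOpen_lt Complex.continuous_re continuous_const).inter
        (isOpen_lt Complex.continuous_im.abs continuous_const))
  · refine ⟨?_, ?_, ?_⟩ <;> simp only [mem_ofPred_eq]
    · norm_num
    · norm_num
    · simpa using hw

lemma KK_disc (L : ℕ) : Nonempty (KK L ≃ₜ Metric.closedBall (0 : ℂ) 1) := by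
  obtain ⟨h, -, h2, -⟩ := exists_homeomorph_image_interior_closure_frontier_eq_unitBall
    (KK_convex L) (KK_int L) (KK_bdd L)
  rw [(KK_closed L).closure_eq] at h2
  rw [← h2]
  exact ⟨h.image _⟩

/-- the stretching factor -/
noncomputable def st (L : ℕ) (y : ℝ) : ℝ := min 1 (2 / 3 + |y| / (3 * wk (L + 1)))

lemma st_pos (L : ℕ) (y : ℝ) : 0 < st L y := by
  unfold st
  have hw := wk_pos (L + 1)
  exact lt_min one_pos (by positivity)

lemma st_le (L : ℕ) (y : ℝ) : st L y ≤ 1 := min_le_left _ _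

lemma st_cases (L : ℕ) (y : ℝ) : st L y = 1 ∨ |y| ≤ wk (L + 1) := by
  unfold st
  have hw := wk_pos (L + 1)
  by_cases h : |y| ≤ wk (L + 1)
  · exact Or.inr h
  · left
    push Not at h
    refine min_eq_left ?_
    have : 1 / 3 ≤ |y| / (3 * wk (L + 1)) := by
      rw [div_le_div_iff₀ (by norm_num) (by positivity)]
      linarith
    linarith

lemma st_cont (L : ℕ) : Continuous (st L) := by
  unfold st
  fun_prop

/-- the centre of the polygon -/
noncomputable def cc (L j : ℕ) : ℝ := (2 * j + 1) / 2 ^ (L + 1)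

lemma cc_lo (L j : ℕ) : (j : ℝ) / 2 ^ L = cc L j - 1 / 2 ^ (L + 1) := by
  unfold cc
  rw [pow_succ]
  field_simp
  ring

lemma cc_hi (L j : ℕ) : ((j : ℝ) + 1) / 2 ^ L = cc L j + 1 / 2 ^ (L + 1) := by
  unfold cc
  rw [pow_succ]
  field_simp
  ring

/-- the polygon in centred coordinates -/
lemma mem_poly_iff {L j : ℕ} {r y : ℝ} (h1 : L + 1 ≤ r) (h2 : r ≤ L + 2)
    (hy : |y| ≤ 1 / 2 ^ (L + 1)) :
    (r, cc L j + y) ∈ Sk 0 ↔ |y| ≤ 1 / 2 ^ (L + 1) - GG r ∧ r ≤ L + 1 + st L y := by
  have hw := wk_pos (L + 1)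
  have hw0 := wk_pos L
  have hws := wk_succ L
  rw [mem_Sk_iff (L := L) h1 h2]
  have hhalf := wk_half L
  obtain ⟨ya, yb⟩ := abs_le.1 hy
  have hNN : NN (L + 1) r ≤ |y| ↔ r ≤ L + 1 + st L y := by
    unfold NN st
    rw [if_pos (by push_cast; linarith)]
    have e : 3 * wk (L + 1) * (r - (((L + 1 : ℕ) : ℝ) + 2 / 3)) ≤ |y| ↔
        r - (((L + 1 : ℕ) : ℝ) + 2 / 3) ≤ |y| / (3 * wk (L + 1)) := by
      rw [le_div_iff₀ (by positivity)]
      constructor <;> intro h <;> linarith
    rw [e]
    constructor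
    · intro h
      have : r - (L + 1) ≤ min 1 (2 / 3 + |y| / (3 * wk (L + 1))) :=
        le_min (by linarith) (by push_cast at h; linarith)
      linarith
    · intro h
      have := min_le_right (1 : ℝ) (2 / 3 + |y| / (3 * wk (L + 1)))
      push_cast
      linarith
  constructor
  · rintro ⟨h3, h4⟩
    have g1 := h3 j
    have g2 := h3 (j + 1)
    push_cast at g1 g2
    rw [cc_lo, show cc L j + y - (cc L j - 1 / 2 ^ (L + 1)) = y + 1 / 2 ^ (L + 1) by ring,
      abs_of_nonneg (by linarith)] at g1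
    rw [cc_hi, show cc L j + y - (cc L j + 1 / 2 ^ (L + 1)) = y - 1 / 2 ^ (L + 1) by ring,
      abs_of_nonpos (by linarith)] at g2
    refine ⟨abs_le.2 ⟨by linarith, by linarith⟩, ?_⟩
    rw [← hNN]
    have g3 := h4 (2 * j + 1) ⟨j, rfl⟩
    have e : cc L j + y - ((2 * (j : ℤ) + 1 : ℤ) : ℝ) / 2 ^ (L + 1) = y := by
      unfold cc
      push_cast
      ring
    simp only at g3
    rwa [e] at g3
  · rintro ⟨h3, h4⟩
    obtain ⟨a1, a2⟩ := abs_le.1 h3
    refine ⟨fun i => ?_, fun m hm => ?_⟩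
    · refine far_int (j := j) ?_ ?_ i
      · rw [cc_lo]
        simp only
        linarith
      · rw [cc_hi]
        simp only
        linarith
    · simp only
      by_cases hmj : m = 2 * j + 1
      · subst hmj
        have e : cc L j + y - ((2 * (j : ℤ) + 1 : ℤ) : ℝ) / 2 ^ (L + 1) = y := by
          unfold cc
          push_cast
          ring
        rw [e]
        exact hNN.2 h4
      · have hN : NN (L + 1) r ≤ wk (L + 1) := NN_le (by push_cast; linarith)
        refine hN.trans ?_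
        obtain ⟨i, rfl⟩ := hm
        have hp : (0 : ℝ) < 2 ^ (L + 1) := by positivity
        rcases lt_or_gt_of_ne (show i ≠ j by intro h; exact hmj (by rw [h])) with h | h
        · have h5 : ((2 * i + 1 : ℤ) : ℝ) / 2 ^ (L + 1) ≤ cc L j - 2 * (1 / 2 ^ (L + 1)) := by
            unfold cc
            rw [show ((2 : ℝ) * j + 1) / 2 ^ (L + 1) - 2 * (1 / 2 ^ (L + 1))
              = (2 * j - 1) / 2 ^ (L + 1) by ring]
            apply div_le_div_of_nonneg_right _ hp.le
            have : (i : ℝ) + 1 ≤ j := by exact_mod_cast h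
            push_cast
            linarith
          exact le_trans (by linarith) (le_abs_self _)
        · have h5 : cc L j + 2 * (1 / 2 ^ (L + 1)) ≤ ((2 * i + 1 : ℤ) : ℝ) / 2 ^ (L + 1) := by
            unfold cc
            rw [show ((2 : ℝ) * j + 1) / 2 ^ (L + 1) + 2 * (1 / 2 ^ (L + 1))
              = (2 * j + 3) / 2 ^ (L + 1) by ring]
            apply div_le_div_of_nonneg_right _ hp.le
            have : (j : ℝ) + 1 ≤ i := by exact_mod_cast h
            push_cast
            linarith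
          exact le_trans (by linarith) (neg_le_abs _)

lemma poly_disc (L j : ℕ) : Nonempty (QQ L j ≃ₜ Metric.closedBall (0 : ℂ) 1) := by
  have hL : (0 : ℝ) ≤ L := by positivity
  have hhalf := wk_half L
  have hw0 := wk_pos L
  have hws := wk_succ L
  have : CompactSpace (KK L) :=
    isCompact_iff_compactSpace.1 (Metric.isCompact_of_isClosed_isBounded (KK_closed L) (KK_bdd L))
  let f : KK L → ℂ := fun z => pp (L + 1 + z.1.re * st L z.1.im, cc L j + z.1.im)
  have hf : Continuous f := by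
    refine pp_cont.comp ?_
    have h1 := Complex.continuous_re
    have h2 := Complex.continuous_im
    have h3 := st_cont L
    fun_prop
  have hy1 : ∀ z : KK L, |z.1.im| ≤ 1 / 2 ^ (L + 1) := fun z => by
    have := GG_pos (L + 1 + z.1.re)
    linarith [z.2.2.2]
  have hr1 : ∀ z : KK L, L + 1 ≤ L + 1 + z.1.re * st L z.1.im := fun z => by
    have := mul_nonneg z.2.1 (st_pos L z.1.im).le
    linarith
  have hr2 : ∀ z : KK L, L + 1 + z.1.re * st L z.1.im ≤ L + 1 + st L z.1.im := fun z => by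
    have := mul_le_mul_of_nonneg_right z.2.2.1 (st_pos L z.1.im).le
    linarith
  have hi : Function.Injective f := by
    intro z w hzw
    have h1 : pp (L + 1 + z.1.re * st L z.1.im, cc L j + z.1.im)
      = pp (L + 1 + w.1.re * st L w.1.im, cc L j + w.1.im) := hzw
    rw [pp_eq] at h1
    rcases h1 with ⟨h2, -⟩ | ⟨h2, m, h3⟩
    · simp only at h2
      linarith [hr1 z]
    · simp only at h2 h3
      have a := abs_le.1 z.2.2.2
      have b := abs_le.1 w.2.2.2
      have g1 := GG_pos (L + 1 + z.1.re)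
      have g2 := GG_pos (L + 1 + w.1.re)
      have hp : (1 : ℝ) / 2 ^ (L + 1) ≤ 1 / 2 := by
        rw [pow_succ]
        have : (1 : ℝ) ≤ 2 ^ L := one_le_pow₀ (by norm_num)
        rw [div_le_div_iff₀ (by positivity) (by norm_num)]
        linarith
      have h4 : (m : ℝ) < 1 := by linarith
      have h5 : (-1 : ℝ) < m := by linarith
      have h6 : m = 0 := by
        have h7 : m < 1 := by exact_mod_cast h4
        have h8 : -1 < m := by exact_mod_cast h5
        omega
      rw [h6] at h3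
      have h7 : z.1.im = w.1.im := by
        push_cast at h3
        linarith
      rw [h7] at h2
      have h8 : z.1.re = w.1.re := by
        have := st_pos L w.1.im
        have h9 : z.1.re * st L w.1.im = w.1.re * st L w.1.im := by linarith
        exact mul_right_cancel₀ this.ne' h9
      exact Subtype.ext (Complex.ext h8 h7)
  have hr : range f = QQ L j := by
    ext x
    constructor
    · rintro ⟨z, rfl⟩
      have h1 := hr1 z
      have h2 := hr2 z
      have h3 := st_le L z.1.im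
      refine ⟨_, ⟨(mem_poly_iff h1 (by linarith) (hy1 z)).2 ⟨?_, h2⟩, h1,
        by simp only; linarith, ?_, ?_⟩, rfl⟩
      · rcases st_cases L z.1.im with h4 | h4
        · rw [h4, mul_one]
          exact z.2.2.2
        · have h5 : GG (L + 1 + z.1.re * st L z.1.im) ≤ wk L :=
            GG_between (mul_nonneg z.2.1 (st_pos L z.1.im).le)
          linarith
      · rw [cc_lo]
        simp only
        linarith [(abs_le.1 (hy1 z)).1]
      · rw [cc_hi]
        simp only
        linarith [(abs_le.1 (hy1 z)).2]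
    · rintro ⟨⟨r, t⟩, ⟨hx, h1, h2, h3, h4⟩, rfl⟩
      simp only at h1 h2 h3 h4
      obtain ⟨y, rfl⟩ : ∃ y, t = cc L j + y := ⟨t - cc L j, by ring⟩
      rw [cc_lo] at h3
      rw [cc_hi] at h4
      have hy : |y| ≤ 1 / 2 ^ (L + 1) := abs_le.2 ⟨by linarith, by linarith⟩
      obtain ⟨h5, h6⟩ := (mem_poly_iff h1 h2 hy).1 hx
      have hs := st_pos L y
      have k1 : 0 ≤ (r - (L + 1)) / st L y := div_nonneg (by linarith) hs.le
      have k2 : (r - (L + 1)) / st L y ≤ 1 := by
        rw [div_le_one hs]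
        linarith
      refine ⟨⟨⟨(r - (L + 1)) / st L y, y⟩, k1, k2, ?_⟩, ?_⟩
      · simp only
        rcases st_cases L y with h7 | h7
        · rw [h7, div_one, show (L : ℝ) + 1 + (r - (L + 1)) = r by ring]
          exact h5
        · have h8 := GG_between (L := L) k1
          linarith
      · change pp (L + 1 + (r - (L + 1)) / st L y * st L y, cc L j + y) = pp (r, cc L j + y)
        rw [div_mul_cancel₀ _ hs.ne']
        congr 2
        ring
  obtain ⟨e⟩ := homeo_of_inj hf hi hr
  obtain ⟨e2⟩ := KK_disc L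
  exact ⟨e.symm.trans e2⟩

lemma PP_disc (n : ℕ) : Nonempty (PP n ≃ₜ Metric.closedBall (0 : ℂ) 1) := by
  rcases cases_vertex n with rfl | ⟨L, j, hj, rfl⟩
  · rw [PP_zero]
    exact root_disc
  · rw [PP_eq hj]
    exact poly_disc L j

/-- the punctures -/
noncomputable def ptt (n : ℕ) : ℂ :=
  if n = 0 then pp (1 / 3, 0)
  else pp (Nat.log 2 n + 4 / 3, cc (Nat.log 2 n) (n - 2 ^ Nat.log 2 n))

lemma ptt_zero : ptt 0 = pp (1 / 3, 0) := if_pos rfl

lemma ptt_eq {L j : ℕ} (hj : j < 2 ^ L) : ptt (2 ^ L + j) = pp (L + 4 / 3, cc L j) := by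
  unfold ptt
  have : 0 < 2 ^ L := by positivity
  rw [if_neg (by omega), log_add hj, Nat.add_sub_cancel_left]

lemma ptt_mem (n : ℕ) : ptt n ∈ interior (PP n) := by
  rcases cases_vertex n with rfl | ⟨L, j, hj, rfl⟩
  · rw [ptt_zero, PP_zero, mem_interior]
    refine ⟨Metric.ball 0 (2 / 3), ?_, Metric.isOpen_ball, ?_⟩
    · intro z hz
      obtain ⟨x, rfl⟩ := pp_surj z
      rw [mem_ball_zero_iff, pp_norm] at hz
      have h1 : x.1 ≤ 2 / 3 := (le_max_left _ _).trans hz.le
      rw [mem_Q0]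
      exact ⟨Sk_small h1, by linarith⟩
    · rw [mem_ball_zero_iff, pp_norm]
      norm_num
  · rw [ptt_eq hj, PP_eq hj, mem_interior]
    have hw := wk_pos L
    have hhalf := wk_half L
    have hL : (0 : ℝ) ≤ L := by positivity
    let W : Set (ℝ × ℝ) := ({x | (L : ℝ) + 1 < x.1} ∩ {x | x.1 < L + 5 / 3}) ∩
      ⋃ m : ℤ, {x | |x.2 + m - cc L j| < wk L}
    have hW : IsOpen W := by
      refine ((isOpen_lt (by fun_prop) (by fun_prop)).inter
        (isOpen_lt (by fun_prop) (by fun_prop))).inter (isOpen_iUnion fun m => ?_)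
      exact isOpen_lt (by fun_prop) (by fun_prop)
    have hsat : pp ⁻¹' (pp '' W) = W := by
      apply Subset.antisymm _ (subset_preimage_image _ _)
      rintro x ⟨y, ⟨⟨hy1, hy2⟩, hy3⟩, hxy⟩
      simp only [mem_ofPred_eq] at hy1 hy2
      rw [pp_eq] at hxy
      rcases hxy with ⟨h1, -⟩ | ⟨h1, m, h2⟩
      · linarith
      · obtain ⟨m', hm'⟩ := mem_iUnion.1 hy3
        simp only [mem_ofPred_eq] at hm'
        refine ⟨⟨by simp only [mem_ofPred_eq]; linarith, by simp only [mem_ofPred_eq]; linarith⟩,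
          mem_iUnion.2 ⟨m + m', ?_⟩⟩
        simp only [mem_ofPred_eq]
        push_cast
        rw [show x.2 + (m + m') - cc L j = x.2 + m + m' - cc L j by ring, ← h2]
        exact hm'
    refine ⟨pp '' W, ?_, ?_, ?_⟩
    · rintro _ ⟨x, ⟨⟨hx1, hx2⟩, hx3⟩, rfl⟩
      simp only [mem_ofPred_eq] at hx1 hx2
      obtain ⟨m, hm⟩ := mem_iUnion.1 hx3
      simp only [mem_ofPred_eq] at hm
      obtain ⟨m1, m2⟩ := abs_lt.1 hm
      have hg := GG_between (L := L) (s := x.1 - (L + 1)) (by linarith)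
      rw [show (L : ℝ) + 1 + (x.1 - (L + 1)) = x.1 by ring] at hg
      rw [mem_QQ]
      refine ⟨?_, hx1.le, by linarith, m, ?_, ?_⟩
      · rw [← Sk_add_int m]
        have e : x + (0, (m : ℝ)) = (x.1, cc L j + (x.2 + m - cc L j)) := by
          ext
          · simp
          · simp
        rw [e, mem_poly_iff hx1.le (by linarith) (by linarith)]
        refine ⟨by linarith, ?_⟩
        have : 2 / 3 ≤ st L (x.2 + m - cc L j) := by
          unfold st
          have hw1 := wk_pos (L + 1)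
          refine le_min (by norm_num) ?_
          have : 0 ≤ |x.2 + m - cc L j| / (3 * wk (L + 1)) := by positivity
          linarith
        linarith
      · rw [cc_lo]
        linarith
      · rw [cc_hi]
        linarith
    · rw [← pp_quot.isOpen_preimage, hsat]
      exact hW
    · refine ⟨_, ⟨⟨?_, ?_⟩, mem_iUnion.2 ⟨0, ?_⟩⟩, rfl⟩ <;> simp only [mem_ofPred_eq]
      · linarith
      · linarith
      · simpa using hw

/-- the rigid surface of the tree `A_{2,1}` -/
noncomputable abbrev XX : RigidSurface where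
  V := ℕ
  T := TT
  tree := TT_tree
  pt := ptt
  P := PP
  disc := PP_disc
  mem := ptt_mem
  locFin := PP_locFin
  inter := fun _ _ h => PP_inter h
  far := fun _ _ h h' => PP_far h h'
  arc := fun _ _ h => PP_arc h

lemma XX_S : XX.S = SS := SS_eq

end Pool.Agent.Q238.AR
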